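import Pool.Agent.H712Z.CK.Sp

set_option autoImplicit false

namespace Pool.Agent.H712Z.CK

open Pool.Agent.H712Z.Cot

/-- finitely supported functions on the rationals with a bottom element -/
abbrev VV : Type := WithBot ℚ →₀ ℝ

/-- cumulative sums -/
noncomputable def cum (l : WithBot ℚ) : VV →ₗ[ℝ] ℝ :=
  Finsupp.linearCombination ℝ (fun i => if i ≤ l then (1 : ℝ) else 0)

/-- the total variation -/
noncomputable def l1 (μ : VV) : ℝ := μ.sum (fun _ a => |a|)

lemma cum_single (l i : WithBot ℚ) (a : ℝ) :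
    cum l (Finsupp.single i a) = if i ≤ l then a else 0 := by
  simp [cum]

lemma l1_eq (μ : VV) {T : Finset (WithBot ℚ)} (h : μ.support ⊆ T) : l1 μ = ∑ i ∈ T, |μ i| :=
  Finsupp.sum_of_support_subset μ h _ (fun _ _ => abs_zero)

lemma l1_nonneg (μ : VV) : 0 ≤ l1 μ := Finset.sum_nonneg (fun _ _ => abs_nonneg _)

lemma sum_le_l1 (μ : VV) (T : Finset (WithBot ℚ)) : ∑ i ∈ T, |μ i| ≤ l1 μ := by
  classical
  rw [l1_eq μ (T := μ.support ∪ T) Finset.subset_union_left]
  exact Finset.sum_le_sum_of_subset_of_nonneg Finset.subset_union_right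
    (fun _ _ _ => abs_nonneg _)

lemma l1_add (μ ν : VV) : l1 (μ + ν) ≤ l1 μ + l1 ν := by
  refine le_trans ?_ (add_le_add (sum_le_l1 μ (μ + ν).support) (sum_le_l1 ν (μ + ν).support))
  rw [← Finset.sum_add_distrib]
  exact Finset.sum_le_sum (fun i _ => abs_add_le _ _)

lemma l1_smul (c : ℝ) (μ : VV) : l1 (c • μ) = |c| * l1 μ := by
  rw [l1_eq (c • μ) Finsupp.support_smul, l1_eq μ subset_rfl, Finset.mul_sum]
  exact Finset.sum_congr rfl (fun i _ => by simp [abs_mul])

lemma l1_single (i : WithBot ℚ) (a : ℝ) : l1 (Finsupp.single i a) = |a| :=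
  Finsupp.sum_single_index abs_zero

lemma l1_mono {μ ν : VV} (h : ∀ i, |μ i| ≤ |ν i|) : l1 μ ≤ l1 ν :=
  (Finset.sum_le_sum (fun i _ => h i)).trans (sum_le_l1 ν μ.support)

lemma l1_sum {ι : Type} (s : Finset ι) (u : ι → VV) : l1 (∑ i ∈ s, u i) ≤ ∑ i ∈ s, l1 (u i) :=
  Finset.le_sum_of_subadditive l1 (by simp [l1]) l1_add s u

lemma abs_cum_le (l : WithBot ℚ) (μ : VV) : |cum l μ| ≤ l1 μ := by
  rw [cum, Finsupp.linearCombination_apply]
  refine (Finset.abs_sum_le_sum_abs _ _).trans (Finset.sum_le_sum (fun i _ => ?_))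
  simp only [smul_eq_mul]
  split_ifs <;> simp

lemma abs_apply_le (l : WithBot ℚ) (μ : VV) : |μ l| ≤ l1 μ := by
  simpa using sum_le_l1 μ {l}

lemma span_single {ι : Type} :
    Submodule.span ℝ (Set.range fun i : ι => (Finsupp.single i 1 : ι →₀ ℝ)) = ⊤ := by
  rw [← Set.image_univ, ← Finsupp.supported_eq_span_single, Finsupp.supported_univ]

theorem exists_james (W : VV → ℝ → Prop) (hl : ∀ v, W v (2 * l1 v))
    (hadd : ∀ v w ρ τ, W v ρ → W w τ → W (v + w) (ρ + τ))
    (hsmul : ∀ (c : ℝ) v ρ, W v ρ → W (c • v) (|c| * ρ))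
    (hmono : ∀ v ρ τ, W v ρ → ρ ≤ τ → W v τ) :
    ∃ (X : Type) (_ : NormedAddCommGroup X) (_ : NormedSpace ℝ X), CompleteSpace X ∧
      TopologicalSpace.SeparableSpace X ∧ ∃ (j : VV →ₗ[ℝ] X) (N : Seminorm ℝ VV), DenseRange j ∧
        (∀ v, ‖j v‖ = N v) ∧ (∀ v ρ, (∀ l, |cum l v| ≤ ρ) → W v (10 * ρ) → N v ≤ ρ) ∧
        (∀ v ρ, N v < ρ → W v (10 * ρ)) ∧
        ∀ α : Ordinal.{0}, α < Ordinal.omega 1 → 2 ≤ cEmb (CO (Ordinal.omega0 ^ α)) X := by
  obtain ⟨N, h1, h2⟩ := exists_seminorm (fun (v : VV) ρ => (∀ l, |cum l v| ≤ ρ) ∧ W v (10 * ρ))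
    (fun v ρ h => (abs_nonneg _).trans (h.1 ⊥))
    (fun v => ⟨l1 v, fun l => abs_cum_le l v, hmono _ _ _ (hl v) (by linarith [l1_nonneg v])⟩)
    (fun v w ρ τ a b => ⟨fun l => by
      rw [map_add]; exact (abs_add_le _ _).trans (add_le_add (a.1 l) (b.1 l)), by
      rw [mul_add]; exact hadd _ _ _ _ a.2 b.2⟩)
    (fun c v ρ a => ⟨fun l => by
      rw [map_smul, smul_eq_mul, abs_mul]
      exact mul_le_mul_of_nonneg_left (a.1 l) (abs_nonneg c), by
      rw [mul_left_comm]; exact hsmul _ _ _ a.2⟩)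
    (fun v ρ τ a b => ⟨fun l => (a.1 l).trans b, hmono _ _ _ a.2 (by linarith)⟩)
  obtain ⟨X, i1, i2, i3, i4, j, hj, hN⟩ := exists_completion N _ (Set.countable_range _) span_single
  refine ⟨X, i1, i2, i3, i4, j, N, hj, hN, fun v ρ a b => h1 v ρ ⟨a, b⟩,
    fun v ρ a => (h2 v ρ a).2, fun α hα => ?_⟩
  have := countable_Icc hα
  have hup : ∀ (c q : ℚ) (s : ℝ), |s| = 1 → (∀ l : WithBot ℚ, |((if (c : WithBot ℚ) ≤ l then (2 : ℝ)
      else 0) + s) - if (q : WithBot ℚ) ≤ l then (2 : ℝ) else 0| ≤ 1) →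
      dist (j (Finsupp.single (c : WithBot ℚ) 2 + Finsupp.single ⊥ s))
        (j (Finsupp.single (q : WithBot ℚ) 2)) ≤ 1 := by
    intro c q s hs H
    rw [dist_eq_norm, ← map_sub, hN]
    refine h1 _ _ ⟨fun l => ?_, hmono _ _ _ (hl _) ?_⟩
    · rw [map_sub, map_add, cum_single, cum_single, cum_single, if_pos bot_le]
      exact H l
    · have a1 := l1_add (Finsupp.single (c : WithBot ℚ) 2 + Finsupp.single ⊥ s)
        ((-1 : ℝ) • Finsupp.single (q : WithBot ℚ) 2)
      have a2 := l1_add (Finsupp.single (c : WithBot ℚ) 2) (Finsupp.single ⊥ s)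
      rw [l1_smul] at a1
      simp only [l1_single] at a1 a2
      rw [neg_one_smul, ← sub_eq_add_neg] at a1
      norm_num at a1 a2
      linarith
  refine two_le_of_rat (fun q => j (Finsupp.single (q : WithBot ℚ) 2))
    (fun c => j (Finsupp.single (c : WithBot ℚ) 2 + Finsupp.single ⊥ 1))
    (fun c => j (Finsupp.single (c : WithBot ℚ) 2 + Finsupp.single ⊥ (-1))) ?_ ?_ ?_
  · intro q c hqc
    refine hup c q 1 abs_one (fun l => ?_)
    have : (q : WithBot ℚ) ≤ c := by exact_mod_cast hqc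
    split_ifs with a b
    · norm_num
    · exact absurd (this.trans a) b
    · norm_num
    · norm_num
  · intro q c hqc
    refine hup c q (-1) (by norm_num) (fun l => ?_)
    have : (c : WithBot ℚ) ≤ q := by exact_mod_cast hqc
    split_ifs with a b b
    · norm_num
    · norm_num
    · exact absurd (this.trans b) a
    · norm_num
  · intro c c' hc
    rw [dist_eq_norm, ← map_sub, hN]
    by_contra hcon
    obtain ⟨ρ, a1, a2⟩ := exists_between (not_le.1 hcon)
    have a3 := (h2 _ _ a1).1 (c : WithBot ℚ)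
    have a4 : ¬ (c' : WithBot ℚ) ≤ c := by
      rw [not_le]; exact_mod_cast hc
    rw [map_sub, map_add, map_add, cum_single, cum_single, cum_single, cum_single, if_pos le_rfl,
      if_pos bot_le, if_pos bot_le, if_neg a4] at a3
    norm_num at a3
    linarith

lemma l1_cotype {n : ℕ} (x : Fin n → VV) (β : Fin n → ℝ) (hβ0 : ∀ i, 0 ≤ β i)
    (hβ : ∑ i, β i ^ 2 ≤ 1) :
    2 ^ n * ∑ i, β i * l1 (x i) ≤ 2 * ∑ ε : Fin n → Bool, l1 (∑ i, sg (ε i) • x i) := by
  classical
  set T := Finset.univ.biUnion (fun i => (x i).support) with hT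
  have h1 : ∀ i, l1 (x i) = ∑ l ∈ T, |x i l| := fun i =>
    l1_eq _ (Finset.subset_biUnion_of_mem (fun i => (x i).support) (Finset.mem_univ i))
  have h2 : ∀ l, 2 ^ n * ∑ i, β i * |x i l| ≤
      2 * ∑ ε : Fin n → Bool, |(∑ i, sg (ε i) • x i) l| := by
    intro l
    let v : Fin n → ℝ := fun i => if 0 ≤ x i l then β i else -β i
    have hv : ∀ i, |v i| ≤ β i := by
      intro i
      simp only [v]
      split_ifs
      · rw [abs_of_nonneg (hβ0 i)]
      · rw [abs_neg, abs_of_nonneg (hβ0 i)]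
    have hv2 : ∀ i, β i * |x i l| = v i * x i l := by
      intro i
      simp only [v]
      split_ifs with h
      · rw [abs_of_nonneg h]
      · rw [abs_of_neg (not_le.1 h)]; ring
    calc 2 ^ n * ∑ i, β i * |x i l| = ∑ i, (∑ ε : Fin n → Bool, sg (ε i) * riesz v ε) * x i l := by
          rw [Finset.mul_sum]
          refine Finset.sum_congr rfl (fun i _ => ?_)
          rw [sum_sg_riesz, Fintype.card_fin, hv2]; ring
      _ = ∑ ε : Fin n → Bool, riesz v ε * (∑ i, sg (ε i) • x i) l := by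
          simp only [Finset.sum_mul, Finsupp.finsetSum_apply, Finsupp.smul_apply, smul_eq_mul,
            Finset.mul_sum]
          rw [Finset.sum_comm]
          exact Finset.sum_congr rfl (fun _ _ => Finset.sum_congr rfl (fun _ _ => by ring))
      _ ≤ _ := by
          rw [Finset.mul_sum]
          refine Finset.sum_le_sum (fun ε _ => (le_abs_self _).trans ?_)
          rw [abs_mul]
          exact mul_le_mul_of_nonneg_right (abs_riesz_le v β hv hβ ε) (abs_nonneg _)
  calc 2 ^ n * ∑ i, β i * l1 (x i) = ∑ l ∈ T, 2 ^ n * ∑ i, β i * |x i l| := by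
        simp only [h1, Finset.mul_sum]
        rw [Finset.sum_comm]
    _ ≤ ∑ l ∈ T, 2 * ∑ ε : Fin n → Bool, |(∑ i, sg (ε i) • x i) l| :=
        Finset.sum_le_sum (fun l _ => h2 l)
    _ ≤ _ := by
        rw [← Finset.mul_sum, Finset.sum_comm]
        exact mul_le_mul_of_nonneg_left (Finset.sum_le_sum (fun ε _ => sum_le_l1 _ T)) (by norm_num)

theorem two_le_cotype {α : Ordinal.{0}} (hα : α < Ordinal.omega 1) :
    2 ≤ classVal (Ordinal.omega0 ^ α) NontrivialCotype := by
  obtain ⟨X, i1, i2, i3, i4, j, N, hj, hN, h1, h2, h3⟩ := exists_james (fun v ρ => l1 v ≤ ρ)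
    (fun v => by linarith [l1_nonneg v]) (fun v w ρ τ a b => (l1_add v w).trans (add_le_add a b))
    (fun c v ρ a => by rw [l1_smul]; exact mul_le_mul_of_nonneg_left a (abs_nonneg c))
    (fun v ρ τ a b => a.trans b)
  have hup : ∀ v, N v ≤ l1 v := fun v =>
    h1 v _ (fun l => abs_cum_le l v) (by linarith [l1_nonneg v])
  have hlow : ∀ v, l1 v ≤ 10 * N v := by
    intro v
    refine le_of_forall_pos_le_add (fun ε hε => ?_)
    have := h2 v (N v + ε / 10) (by linarith)
    linarith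
  have hc : NontrivialCotype X := by
    refine cotype_of_dense j hj N hN (q := 2) (C := 20) le_rfl (fun n x => ?_)
    simp only [Real.rpow_two]
    rw [← Real.sqrt_eq_rpow]
    set A := √(∑ i, N (x i) ^ 2) with hA
    have hS : 0 ≤ ∑ i, N (x i) ^ 2 := Finset.sum_nonneg (fun _ _ => sq_nonneg _)
    have hA2 : A ^ 2 = ∑ i, N (x i) ^ 2 := Real.sq_sqrt hS
    have hE : 0 ≤ ∑ ε : Fin n → Bool, N (∑ i, sg (ε i) • x i) :=
      Finset.sum_nonneg (fun _ _ => apply_nonneg _ _)
    rcases (Real.sqrt_nonneg (∑ i, N (x i) ^ 2)).eq_or_lt with h0 | h0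
    · rw [hA, ← h0]; positivity
    rw [← hA] at h0
    have h4 := l1_cotype x (fun i => N (x i) / A) (fun i => by positivity) (by
      simp only [div_pow]
      rw [← Finset.sum_div, ← hA2, div_self (by positivity)])
    have h5 : A ≤ ∑ i, N (x i) / A * l1 (x i) := by
      calc A = ∑ i, N (x i) / A * N (x i) := by
            simp only [div_mul_eq_mul_div, ← sq]
            rw [← Finset.sum_div, ← hA2]; field_simp
        _ ≤ _ := Finset.sum_le_sum (fun i _ =>
            mul_le_mul_of_nonneg_left (hup _) (by positivity))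
    have h6 : ∑ ε : Fin n → Bool, l1 (∑ i, sg (ε i) • x i) ≤
        10 * ∑ ε : Fin n → Bool, N (∑ i, sg (ε i) • x i) := by
      rw [Finset.mul_sum]
      exact Finset.sum_le_sum (fun ε _ => hlow _)
    have h7 := mul_le_mul_of_nonneg_left h5 (show (0 : ℝ) ≤ 2 ^ n by positivity)
    rw [← mul_div_assoc, le_div_iff₀ (by positivity)]
    linarith
  refine (h3 α hα).trans ?_
  unfold classVal
  exact le_iSup_of_le X (le_iSup_of_le i1 (le_iSup_of_le i2 (le_iSup_of_le i3 (le_iSup_of_le i4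
    (le_iSup_of_le hc le_rfl)))))

end Pool.Agent.H712Z.CK
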