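import Mathlib

set_option autoImplicit false

namespace Pool.Agent.H712Z.CK

open scoped ENNReal NNReal

/-- The Banach space `C([0, γ])` of continuous real functions on the ordinal interval. -/
abbrev CO (γ : Ordinal.{0}) : Type 1 := C(Set.Icc (0 : Ordinal.{0}) γ, ℝ)

/-- The least distortion `c_X(M)`: the infimum of `a * b` over the maps `f : M → X` that are
`a`-Lipschitz and whose inverse on the image is `b`-Lipschitz (`∞` if there is none). -/
noncomputable def cEmb (X : Type 1) [MetricSpace X] (M : Type) [MetricSpace M] : ℝ≥0∞ :=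
  ⨅ (f : M → X) (a : ℝ≥0) (b : ℝ≥0) (_ : LipschitzWith a f) (_ : AntilipschitzWith b f),
    ((a : ℝ≥0∞) * (b : ℝ≥0∞))

/-- Nontrivial Rademacher type. -/
def NontrivialType (X : Type) [NormedAddCommGroup X] [NormedSpace ℝ X] : Prop :=
  ∃ p T : ℝ, 1 < p ∧ ∀ (n : ℕ) (x : Fin n → X),
    (∑ ε : Fin n → Bool, ‖∑ i, (if ε i then (1 : ℝ) else -1) • x i‖) / 2 ^ n
      ≤ T * (∑ i, ‖x i‖ ^ p) ^ (1 / p)

/-- Nontrivial Rademacher cotype. -/
def NontrivialCotype (X : Type) [NormedAddCommGroup X] [NormedSpace ℝ X] : Prop :=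
  ∃ q C : ℝ, 2 ≤ q ∧ ∀ (n : ℕ) (x : Fin n → X),
    (∑ i, ‖x i‖ ^ q) ^ (1 / q) ≤
      C * ((∑ ε : Fin n → Bool, ‖∑ i, (if ε i then (1 : ℝ) else -1) • x i‖) / 2 ^ n)

/-- Superreflexive: linearly isomorphic to a uniformly convex space. -/
def Superreflexive (X : Type) [NormedAddCommGroup X] [NormedSpace ℝ X] : Prop :=
  ∃ (Y : Type) (_ : NormedAddCommGroup Y) (_ : NormedSpace ℝ Y),
    UniformConvexSpace Y ∧ Nonempty (X ≃L[ℝ] Y)

/-- The supremum of `c_{C([0, γ])}(X)` over the separable real Banach spaces `X` with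
property `P`. -/
noncomputable def classVal (γ : Ordinal.{0})
    (P : ∀ (X : Type) [NormedAddCommGroup X] [NormedSpace ℝ X], Prop) : ℝ≥0∞ :=
  ⨆ (X : Type) (_ : NormedAddCommGroup X) (_ : NormedSpace ℝ X) (_ : CompleteSpace X)
    (_ : TopologicalSpace.SeparableSpace X) (_ : P X), cEmb (CO γ) X

end Pool.Agent.H712Z.CK
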