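import Pool.Agent.H712Z.CK.Up2

set_option autoImplicit false

namespace Pool.Agent.H712Z.CK

open Order Metric

variable {M : Type} [MetricSpace M] {Δ : Type} [MetricSpace Δ]

/-- the fragmentation derivative -/
def der (e : Δ → M → ℝ) (S : Set M) (σ : ℝ) (L : Set Δ) : Set Δ :=
  {p | p ∈ L ∧ ∀ r : ℝ, 0 < r → ∃ p' ∈ L, ∃ p'' ∈ L, dist p' p < r ∧ dist p'' p < r ∧
    ∃ z ∈ S, σ < |e p' z - e p'' z|}

variable {e : Δ → M → ℝ} {S : Set M} {σ : ℝ}

lemma der_subset (L : Set Δ) : der e S σ L ⊆ L := fun _ h => h.1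

lemma der_mono {L L' : Set Δ} (h : L ⊆ L') : der e S σ L ⊆ der e S σ L' := by
  rintro p ⟨h1, h2⟩
  refine ⟨h h1, fun r hr => ?_⟩
  obtain ⟨p', a, p'', b, c⟩ := h2 r hr
  exact ⟨p', h a, p'', h b, c⟩

lemma der_closed {L : Set Δ} (hL : IsClosed L) : IsClosed (der e S σ L) := by
  apply isClosed_of_closure_subset
  intro p hp
  refine ⟨hL.closure_subset_iff.2 (der_subset L) hp, fun r hr => ?_⟩
  obtain ⟨q, hq, hd⟩ := Metric.mem_closure_iff.1 hp (r / 2) (by linarith)
  obtain ⟨p', a, p'', b, c, d, z⟩ := hq.2 (r / 2) (by linarith)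
  refine ⟨p', a, p'', b, ?_, ?_, z⟩
  · have := dist_triangle p' q p
    rw [dist_comm q p] at this
    linarith
  · have := dist_triangle p'' q p
    rw [dist_comm q p] at this
    linarith

lemma iter_subset (k : ℕ) (L : Set Δ) : (der e S σ)^[k] L ⊆ L := by
  induction k with
  | zero => exact subset_rfl
  | succ k ih => rw [Function.iterate_succ_apply']; exact (der_subset _).trans ih

lemma iter_mono (k : ℕ) {L L' : Set Δ} (h : L ⊆ L') :
    (der e S σ)^[k] L ⊆ (der e S σ)^[k] L' := by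
  induction k with
  | zero => exact h
  | succ k ih => rw [Function.iterate_succ_apply', Function.iterate_succ_apply']; exact der_mono ih

lemma iter_closed (k : ℕ) {L : Set Δ} (hL : IsClosed L) : IsClosed ((der e S σ)^[k] L) := by
  induction k with
  | zero => exact hL
  | succ k ih => rw [Function.iterate_succ_apply']; exact der_closed ih

/-- the conclusion of the recursive construction -/
def Good (e : Δ → M → ℝ) (S : Set M) (γ : Ordinal.{0}) (L : Set Δ) (b : M → ℝ) (τ τ' : ℝ) : Prop :=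
  ∃ F : M → Ordinal.{0} → ℝ, Sys S γ F ∧ (∀ p ∈ L, ∃ ξ, ∀ z ∈ S, |F z ξ - e p z| ≤ τ') ∧
    ∀ z ∈ S, (∀ p ∈ L, |b z - e p z| ≤ τ) → ∀ ξ, F z ξ = b z

lemma piece_step [CompactSpace Δ] (hcont : ∀ z, Continuous fun p => e p z)
    (hlip : ∀ p z w, |e p z - e p w| ≤ dist z w) {δ : ℝ} (hδ : 0 < δ) (k : ℕ)
    (γ : Ordinal.{0})
    (ih : ∀ L : Set Δ, IsClosed L → (der e S σ)^[k] L = ∅ → ∀ b : M → ℝ,
      (∀ z w, |b z - b w| ≤ dist z w) → ∀ τ, σ ≤ τ → Good e S γ L b τ (τ + k * δ))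
    (N : Set Δ) (hN : IsClosed N) (D : Set Δ) (hD : IsClosed D) (hDN : D ⊆ N)
    (hder : (der e S σ)^[k] N ⊆ D)
    (hsmall : ∀ p ∈ D, ∀ p' ∈ D, ∀ z ∈ S, |e p z - e p' z| ≤ σ)
    (b : M → ℝ) (hb : ∀ z w, |b z - b w| ≤ dist z w) (τ : ℝ) (hτ : σ ≤ τ) :
    Good e S ((γ + 1) * Ordinal.omega0) N b τ (τ + (k + 1 : ℕ) * δ) := by
  have hγ : γ ≤ (γ + 1) * Ordinal.omega0 := by
    calc γ ≤ γ + 1 := le_self_add
      _ = (γ + 1) * 1 := (mul_one _).symm
      _ ≤ (γ + 1) * Ordinal.omega0 := by gcongr; exact Ordinal.one_lt_omega0.le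
  have hkδ : 0 ≤ (k : ℝ) * δ := by positivity
  rcases D.eq_empty_or_nonempty with hDe | hDne
  · obtain ⟨F, f1, f2, f3⟩ := ih N hN (Set.subset_empty_iff.1 (hDe ▸ hder)) b hb τ hτ
    refine ⟨F, f1.mono hγ, fun p hp => ?_, f3⟩
    obtain ⟨ξ, hξ⟩ := f2 p hp
    refine ⟨ξ, fun z hz => (hξ z hz).trans ?_⟩
    push_cast; linarith
  have hDc : IsCompact D := hD.isCompact
  choose pu hpu hpu' using fun z => hDc.exists_isMaxOn hDne (hcont z).continuousOn
  choose pl hpl hpl' using fun z => hDc.exists_isMinOn hDne (hcont z).continuousOn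
  let u : M → ℝ := fun z => e (pu z) z
  let l : M → ℝ := fun z => e (pl z) z
  have hu : ∀ z, ∀ p ∈ D, e p z ≤ u z := fun z p hp => hpu' z hp
  have hl : ∀ z, ∀ p ∈ D, l z ≤ e p z := fun z p hp => hpl' z hp
  have hulip : ∀ z w, |u z - u w| ≤ dist z w := by
    intro z w
    have a1 := hu w (pu z) (hpu z)
    have a2 := hu z (pu w) (hpu w)
    have a3 := abs_le.1 (hlip (pu z) z w)
    have a4 := abs_le.1 (hlip (pu w) z w)
    rw [abs_le]
    simp only [u] at *
    constructor <;> linarith [a3.1, a3.2, a4.1, a4.2]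
  have hllip : ∀ z w, |l z - l w| ≤ dist z w := by
    intro z w
    have a1 := hl w (pl z) (hpl z)
    have a2 := hl z (pl w) (hpl w)
    have a3 := abs_le.1 (hlip (pl z) z w)
    have a4 := abs_le.1 (hlip (pl w) z w)
    rw [abs_le]
    simp only [l] at *
    constructor <;> linarith [a3.1, a3.2, a4.1, a4.2]
  let h : M → ℝ := fun z => max (u z - τ) (min (b z) (l z + τ))
  have hhlip : ∀ z w, |h z - h w| ≤ dist z w :=
    lip_max (lip_sub_const hulip τ) (lip_min hb (lip_add_const hllip τ))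
  have hhD : ∀ z ∈ S, ∀ p ∈ D, |h z - e p z| ≤ τ := by
    intro z hz p hp
    have a1 := hu z p hp
    have a2 := hl z p hp
    have a3 := abs_le.1 (hsmall (pu z) (hpu z) p hp z hz)
    have a4 : u z - τ ≤ h z := le_max_left _ _
    have a5 : h z ≤ e p z + τ := by
      apply max_le
      · have hσ0 : 0 ≤ σ := (abs_nonneg _).trans (hsmall p hp p hp z hz)
        simp only [u]; linarith [a3.2]
      · exact (min_le_right _ _).trans (by linarith)
    rw [abs_le]
    constructor <;> linarith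
  have hhb : ∀ z, (∀ p ∈ N, |b z - e p z| ≤ τ) → h z = b z := by
    intro z H
    have a1 := abs_le.1 (H (pu z) (hDN (hpu z)))
    have a2 := abs_le.1 (H (pl z) (hDN (hpl z)))
    simp only [h]
    rw [min_eq_left (by simp only [l]; linarith [a2.2]),
      max_eq_right (by simp only [u]; linarith [a1.1])]
  let ρ : Δ → ℝ := fun p => min (infDist p D) 1
  have hρ : Continuous ρ := (continuous_infDist_pt D).min continuous_const
  let Lm : ℕ → Set Δ := fun m => N ∩ ρ ⁻¹' Set.Icc (1 / ((m : ℝ) + 2)) (1 / ((m : ℝ) + 1))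
  have hLc : ∀ m, IsClosed (Lm m) := fun m => hN.inter (isClosed_Icc.preimage hρ)
  have hLe : ∀ m, (der e S σ)^[k] (Lm m) = ∅ := by
    intro m
    rw [Set.eq_empty_iff_forall_notMem]
    intro p hp
    have a1 : p ∈ D := hder (iter_mono k Set.inter_subset_left hp)
    have a2 : 1 / ((m : ℝ) + 2) ≤ ρ p := (iter_subset k _ hp).2.1
    simp only [ρ, infDist_zero_of_mem a1] at a2
    have a3 : (0 : ℝ) < 1 / ((m : ℝ) + 2) := by positivity
    have := min_le_left (0 : ℝ) 1
    linarith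
  choose F f1 f2 f3 using fun m => ih (Lm m) (hLc m) (hLe m) h hhlip (τ + δ) (by linarith)
  obtain ⟨G, g1, g2, g3, g4⟩ := glue (S := S) (γ := γ) F h f1 hhlip (by
    intro z hz ε hε
    have huc := CompactSpace.uniformContinuous_of_continuous (hcont z)
    obtain ⟨r, hr, H⟩ := Metric.uniformContinuous_iff.1 huc δ hδ
    obtain ⟨m0, hm0⟩ := exists_nat_one_div_lt (lt_min hr one_pos)
    refine (Set.finite_Iic m0).subset ?_
    rintro m ⟨ξ, hξ⟩
    by_contra hcon
    have hm : (m0 : ℝ) ≤ m := by exact_mod_cast (not_le.1 hcon).le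
    rw [f3 m z hz] at hξ
    · simp at hξ; linarith
    · intro p hp
      have a1 : ρ p ≤ 1 / ((m : ℝ) + 1) := hp.2.2
      have a2 : 1 / ((m : ℝ) + 1) ≤ 1 / ((m0 : ℝ) + 1) :=
        one_div_le_one_div_of_le (by positivity) (by linarith)
      have a3 : ρ p < min r 1 := lt_of_le_of_lt (a1.trans a2) hm0
      have a4 : infDist p D < r := by
        rcases min_lt_iff.1 (lt_of_lt_of_le a3 (min_le_right _ _)) with b1 | b1
        · simp only [ρ, min_eq_left b1.le] at a3
          exact lt_of_lt_of_le a3 (min_le_left _ _)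
        · exact absurd b1 (lt_irrefl _)
      obtain ⟨p', hp', hd⟩ := (infDist_lt_iff hDne).1 a4
      have a5 := H hd
      rw [Real.dist_eq] at a5
      have a6 := hhD z hz p' hp'
      have a7 := abs_sub_le (h z) (e p' z) (e p z)
      rw [abs_sub_comm (e p' z)] at a7
      linarith)
  refine ⟨G, g1, fun p hp => ?_, fun z hz H ξ' => ?_⟩
  · by_cases hpD : p ∈ D
    · obtain ⟨ξ, hξ⟩ := g3
      refine ⟨ξ, fun z hz => ?_⟩
      rw [hξ]
      refine (hhD z hz p hpD).trans ?_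
      push_cast; linarith
    · have a1 : 0 < infDist p D := (hD.notMem_iff_infDist_pos hDne).1 hpD
      have a2 : 0 < ρ p := lt_min a1 one_pos
      have a3 : ρ p ≤ 1 := min_le_right _ _
      have a4 : ∃ m : ℕ, p ∈ Lm m := by
        have b1 : 1 ≤ 1 / ρ p := by rw [le_div_iff₀ a2]; linarith
        have b2 : 1 ≤ ⌊1 / ρ p⌋₊ := Nat.le_floor (by exact_mod_cast b1)
        obtain ⟨m, hm⟩ := Nat.exists_eq_add_of_le' b2
        have b3 : ((⌊1 / ρ p⌋₊ : ℕ) : ℝ) ≤ 1 / ρ p := Nat.floor_le (by positivity)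
        have b4 : 1 / ρ p < (⌊1 / ρ p⌋₊ : ℕ) + 1 := Nat.lt_floor_add_one _
        rw [hm] at b3 b4
        push_cast at b3 b4
        refine ⟨m, hp, ?_, ?_⟩
        · rw [div_le_iff₀ (by positivity)]
          rw [div_lt_iff₀ a2] at b4
          linarith
        · rw [le_div_iff₀ (by positivity)]
          rw [le_div_iff₀ a2] at b3
          linarith
      obtain ⟨m, hm⟩ := a4
      obtain ⟨ξ, hξ⟩ := f2 m p hm
      obtain ⟨ξ', hξ'⟩ := g2 m ξ
      refine ⟨ξ', fun z hz => ?_⟩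
      rw [hξ']
      refine (hξ z hz).trans (le_of_eq ?_)
      push_cast; ring
  · have a1 := hhb z H
    rcases g4 ξ' with ⟨m, ξ, h1⟩ | h1
    · rw [h1, f3 m z hz _ ξ, a1]
      intro p hp
      rw [a1]
      exact (H p hp.1).trans (by linarith)
    · rw [h1, a1]

theorem good_of_der [CompactSpace Δ] (hcont : ∀ z, Continuous fun p => e p z)
    (hlip : ∀ p z w, |e p z - e p w| ≤ dist z w) {δ : ℝ} (hδ : 0 < δ) (k : ℕ) :
    ∀ L : Set Δ, IsClosed L → (der e S σ)^[k] L = ∅ → ∀ b : M → ℝ,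
      (∀ z w, |b z - b w| ≤ dist z w) → ∀ τ, σ ≤ τ → Good e S (ht (2 * k)) L b τ (τ + k * δ) := by
  induction k with
  | zero =>
    intro L _ hL b hb τ _
    refine ⟨fun z _ => b z, sys_const _ _ _ hb, fun p hp => ?_, fun _ _ _ _ => rfl⟩
    rw [Function.iterate_zero_apply] at hL
    rw [hL] at hp
    exact absurd hp (Set.notMem_empty p)
  | succ k ih =>
    intro L hL hLe b hb τ hτ
    set L' := (der e S σ)^[k] L with hL'
    have hL'c : IsClosed L' := iter_closed k hL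
    rw [Function.iterate_succ_apply', ← hL'] at hLe
    have hr : ∀ p : Δ, ∃ r : ℝ, 0 < r ∧ ∀ p' ∈ L', ∀ p'' ∈ L', dist p' p < r → dist p'' p < r →
        ∀ z ∈ S, |e p' z - e p'' z| ≤ σ := by
      intro p
      by_cases hp : p ∈ L'
      · have h1 : p ∉ der e S σ L' := by rw [hLe]; exact Set.notMem_empty p
        by_contra hcon
        push Not at hcon
        exact h1 ⟨hp, fun r hr => hcon r hr⟩
      · obtain ⟨r, hr, hb⟩ := Metric.isOpen_iff.1 hL'c.isOpen_compl p hp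
        exact ⟨r, hr, fun p' hp' _ _ hd => absurd hp' (hb hd)⟩
    choose r hr0 hr using hr
    obtain ⟨t, ht⟩ := isCompact_univ.elim_finite_subcover (fun p : Δ => ball p (r p / 2))
      (fun _ => isOpen_ball) (fun p _ => Set.mem_iUnion.2 ⟨p, mem_ball_self (by linarith [hr0 p])⟩)
    choose F f1 f2 f3 using fun p : t => piece_step hcont hlip hδ k (CK.ht (2 * k)) ih
      (L ∩ closedBall p.1 (r p.1 / 2)) (hL.inter isClosed_closedBall)
      (L' ∩ closedBall p.1 (r p.1 / 2)) (hL'c.inter isClosed_closedBall)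
      (Set.inter_subset_inter_left _ (iter_subset k L))
      (fun q hq => ⟨iter_mono k Set.inter_subset_left hq, (iter_subset k _ hq).2⟩)
      (fun p' hp' p'' hp'' z hz => hr p.1 p' hp'.1 p'' hp''.1
        (lt_of_le_of_lt hp'.2 (by linarith [hr0 p.1]))
        (lt_of_le_of_lt hp''.2 (by linarith [hr0 p.1])) z hz) b hb τ hτ
    obtain ⟨G, g1, g2, -, g4⟩ := glue (S := S) F b f1 hb (fun _ _ _ _ => Set.toFinite _)
    refine ⟨G, g1, fun p hp => ?_, fun z hz H ξ' => ?_⟩
    · have := ht (Set.mem_univ p)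
      simp only [Set.mem_iUnion] at this
      obtain ⟨q, hq, hpq⟩ := this
      obtain ⟨ξ, hξ⟩ := f2 ⟨q, hq⟩ p ⟨hp, ball_subset_closedBall hpq⟩
      obtain ⟨ξ', hξ'⟩ := g2 ⟨q, hq⟩ ξ
      exact ⟨ξ', fun z hz => by rw [hξ']; exact hξ z hz⟩
    · rcases g4 ξ' with ⟨q, ξ, h1⟩ | h1
      · rw [h1, f3 q z hz (fun p hp => H p hp.1) ξ]
      · exact h1 z

end Pool.Agent.H712Z.CK
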