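import Pool.Agent.H712Z.CK.Der

set_option autoImplicit false

namespace Pool.Agent.H712Z.CK

open Order Metric

variable {X : Type} [NormedAddCommGroup X] [NormedSpace ℝ X] {Δ : Type} [MetricSpace Δ]

omit [MetricSpace Δ] in
lemma cells (ev : Δ → X →L[ℝ] ℝ) (hev : ∀ p, ‖ev p‖ ≤ 1) (Φ : Finset Δ) {δ : ℝ} (hδ : 0 < δ) :
    ∃ T : Finset X, (∀ w ∈ T, ‖w‖ < 1) ∧
      ∀ w : X, ‖w‖ < 1 → ∃ w' ∈ T, ∀ φ ∈ Φ, |ev φ w - ev φ w'| ≤ δ := by
  classical
  let g : X → (Φ → ℝ) := fun w φ => ev φ.1 w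
  have hb : Bornology.IsBounded (g '' ball 0 1) := by
    refine (isBounded_closedBall (x := (0 : Φ → ℝ)) (r := 1)).subset ?_
    rintro _ ⟨w, hw, rfl⟩
    rw [mem_closedBall_zero_iff, pi_norm_le_iff_of_nonneg zero_le_one]
    intro φ
    have h1 := (ev φ.1).le_opNorm w
    have h2 := mem_ball_zero_iff.1 hw
    have h3 := hev φ.1
    calc ‖g w φ‖ ≤ ‖ev φ.1‖ * ‖w‖ := h1
      _ ≤ 1 * 1 := mul_le_mul h3 h2.le (norm_nonneg _) zero_le_one
      _ = 1 := one_mul 1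
  have htb : TotallyBounded (g '' ball 0 1) :=
    hb.isCompact_closure.totallyBounded.subset subset_closure
  obtain ⟨t, ht1, ht2, ht3⟩ := finite_approx_of_totallyBounded htb δ hδ
  choose! w hw1 hw2 using fun y (hy : y ∈ t) => ht1 hy
  refine ⟨ht2.toFinset.image w, ?_, fun v hv => ?_⟩
  · intro v hv
    obtain ⟨y, hy, rfl⟩ := Finset.mem_image.1 hv
    exact mem_ball_zero_iff.1 (hw1 y (ht2.mem_toFinset.1 hy))
  · have := ht3 ⟨v, mem_ball_zero_iff.2 hv, rfl⟩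
    simp only [Set.mem_iUnion] at this
    obtain ⟨y, hy, hd⟩ := this
    refine ⟨w y, Finset.mem_image_of_mem _ (ht2.mem_toFinset.2 hy), fun φ hφ => ?_⟩
    have h1 := dist_le_pi_dist (g v) y ⟨φ, hφ⟩
    rw [← hw2 y hy, Real.dist_eq] at h1
    rw [mem_ball, ← hw2 y hy] at hd
    exact h1.trans hd.le

lemma near (ev : Δ → X →L[ℝ] ℝ) (hcont : ∀ z, Continuous fun p => ev p z) (p : Δ) (F : Finset X)
    {δ : ℝ} (hδ : 0 < δ) :
    ∃ r : ℝ, 0 < r ∧ ∀ p', dist p' p < r → ∀ z ∈ F, |ev p' z - ev p z| ≤ δ := by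
  have h : ∀ᶠ p' in nhds p, ∀ z ∈ F, |ev p' z - ev p z| ≤ δ := by
    rw [Filter.eventually_all_finset]
    intro z _
    have := Metric.continuousAt_iff'.1 ((hcont z).continuousAt (x := p)) δ hδ
    filter_upwards [this] with p' hp'
    rw [Real.dist_eq] at hp'
    exact hp'.le
  obtain ⟨r, hr, H⟩ := Metric.eventually_nhds_iff.1 h
  exact ⟨r, hr, fun p' hp' => H hp'⟩

lemma james_base (ev : Δ → X →L[ℝ] ℝ) (hev : ∀ p, ‖ev p‖ ≤ 1)
    (hcont : ∀ z, Continuous fun p => ev p z) {σ : ℝ} (L : Set Δ) (p : Δ)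
    (hp : p ∈ der (fun p z => ev p z) (ball 0 1) σ L) (F : Finset X) (Φ : Finset Δ) (hΦ : p ∈ Φ)
    {δ : ℝ} (hδ : 0 < δ) :
    ∃ p' ∈ L, ∃ v : X, ‖v‖ ≤ 2 ∧ (∀ z ∈ F, |ev p' z - ev p z| ≤ δ) ∧
      (∀ φ ∈ Φ, |ev φ v| ≤ δ) ∧ σ / 2 - δ ≤ ev p' v := by
  classical
  obtain ⟨T, hT1, hT2⟩ := cells ev hev Φ (half_pos hδ)
  obtain ⟨r, hr, hnear⟩ := near ev hcont p (F ∪ T) (half_pos hδ)
  obtain ⟨p1, hp1, p2, hp2, d1, d2, z, hz, hσ⟩ := hp.2 r hr
  have hz1 : ‖z‖ < 1 := mem_ball_zero_iff.1 hz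
  have key : ∃ p' ∈ L, dist p' p < r ∧ ∃ y : X, ‖y‖ < 1 ∧ σ / 2 < ev p' y - ev p y := by
    have h1 := abs_sub_le (ev p1 z) (ev p z) (ev p2 z)
    have h2 : ∀ q : Δ, σ / 2 < |ev q z - ev p z| → ∃ y : X, ‖y‖ < 1 ∧ σ / 2 < ev q y - ev p y := by
      intro q hq
      rcases lt_abs.1 hq with h | h
      · exact ⟨z, hz1, h⟩
      · exact ⟨-z, by rwa [norm_neg], by rw [map_neg, map_neg]; linarith⟩
    by_cases h3 : σ / 2 < |ev p1 z - ev p z|
    · exact ⟨p1, hp1, d1, h2 p1 h3⟩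
    · refine ⟨p2, hp2, d2, h2 p2 ?_⟩
      rw [abs_sub_comm]
      linarith [not_lt.1 h3]
  obtain ⟨p', hp', hd, y, hy, hgap⟩ := key
  obtain ⟨w, hw, hww⟩ := hT2 y hy
  refine ⟨p', hp', y - w, ?_, fun z hz => ?_, fun φ hφ => ?_, ?_⟩
  · have := norm_sub_le y w
    linarith [hT1 w hw]
  · exact (hnear p' hd z (Finset.mem_union_left _ hz)).trans (by linarith)
  · rw [map_sub]; exact (hww φ hφ).trans (by linarith)
  · have h1 := abs_le.1 (hnear p' hd w (Finset.mem_union_right _ hw))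
    have h2 := abs_le.1 (hww p hΦ)
    rw [map_sub]
    linarith [h1.2, h2.1]

lemma finite_index (ev : Δ → X →L[ℝ] ℝ) (hev : ∀ p, ‖ev p‖ ≤ 1)
    (hcont : ∀ z, Continuous fun p => ev p z) (hX : Superreflexive X) {σ : ℝ} (hσ : 0 < σ) :
    ∃ k, (der (fun p z => ev p z) (ball 0 1) σ)^[k] Set.univ = ∅ := by
  classical
  obtain ⟨Y, _, _, hY, ⟨T⟩⟩ := hX
  set R : ℝ := 2 * ‖(T : X →L[ℝ] Y)‖ + 1 with hR
  set B : ℝ := ‖(T.symm : Y →L[ℝ] X)‖ + 1 with hB
  have hR0 : 0 < R := by positivity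
  have hB0 : 0 < B := by positivity
  have hTB : ∀ v : X, ‖v‖ ≤ B * ‖T v‖ := by
    intro v
    have h1 := (T.symm : Y →L[ℝ] X).le_opNorm (T v)
    simp only [ContinuousLinearEquiv.coe_coe, ContinuousLinearEquiv.symm_apply_apply] at h1
    refine h1.trans (mul_le_mul_of_nonneg_right (by linarith) (norm_nonneg _))
  obtain ⟨δ0, hδ0, huc⟩ := exists_forall_closed_ball_dist_add_le_two_sub Y
    (show 0 < σ / (4 * B * R) by positivity)
  set κ : ℝ := max (1 - δ0 / 2) (1 / 2) with hκ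
  have hκ0 : 0 < κ := lt_of_lt_of_le (by norm_num) (le_max_right _ _)
  have hκ1 : κ < 1 := max_lt (by linarith) (by norm_num)
  set d := der (fun p z => ev p z) (ball (0 : X) 1) σ with hd
  have hevle : ∀ p v, ev p v ≤ ‖v‖ := by
    intro p v
    have h1 := (ev p).le_opNorm v
    have h2 := mul_le_mul_of_nonneg_right (hev p) (norm_nonneg v)
    have h3 := le_abs_self (ev p v)
    rw [Real.norm_eq_abs] at h1
    linarith
  have S : ∀ (m n : ℕ) (p : Δ), p ∈ d^[2 ^ m + n] Set.univ → ∀ (F : Finset X) (Φ : Finset Δ),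
      p ∈ Φ → ∀ δ : ℝ, 0 < δ → ∃ p' ∈ d^[n] Set.univ, ∃ v : X, ‖T v‖ ≤ R * κ ^ m ∧
        (∀ z ∈ F, |ev p' z - ev p z| ≤ δ) ∧ (∀ φ ∈ Φ, |ev φ v| ≤ δ) ∧ σ / 2 - δ ≤ ev p' v := by
    intro m
    induction m with
    | zero =>
      intro n p hp F Φ hΦ δ hδ
      rw [pow_zero, add_comm, show n + 1 = n.succ from rfl, Function.iterate_succ_apply'] at hp
      obtain ⟨p', hp', v, h1, h2⟩ := james_base ev hev hcont _ p hp F Φ hΦ hδ
      refine ⟨p', hp', v, ?_, h2⟩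
      have h3 := (T : X →L[ℝ] Y).le_opNorm v
      have h4 := mul_le_mul_of_nonneg_left h1 (norm_nonneg (T : X →L[ℝ] Y))
      simp only [ContinuousLinearEquiv.coe_coe] at h3
      rw [pow_zero]; linarith
    | succ m ih =>
      intro n p hp F Φ hΦ δ hδ
      set δ' := min (δ / 2) (σ / 8) with hδ'
      have hδ'0 : 0 < δ' := lt_min (by linarith) (by linarith)
      have hδ'1 : δ' ≤ δ / 2 := min_le_left _ _
      have hδ'2 : δ' ≤ σ / 8 := min_le_right _ _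
      have e : 2 ^ (m + 1) + n = 2 ^ m + (2 ^ m + n) := by ring
      rw [e] at hp
      obtain ⟨p1, hp1, v1, a1, a2, a3, a4⟩ := ih _ p hp F Φ hΦ δ' hδ'0
      obtain ⟨p2, hp2, v2, b1, b2, b3, b4⟩ := ih _ p1 hp1 (insert v1 F) (insert p1 Φ)
        (Finset.mem_insert_self _ _) δ' hδ'0
      refine ⟨p2, hp2, (1 / 2 : ℝ) • (v1 + v2), ?_, fun z hz => ?_, fun φ hφ => ?_, ?_⟩
      · set ρ := R * κ ^ m with hρ
        have hρ0 : 0 < ρ := by positivity
        have hρR : ρ ≤ R := by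
          have := pow_le_one₀ (n := m) hκ0.le hκ1.le
          nlinarith
        have c1 : σ / 4 ≤ ‖v1 - v2‖ := by
          have c2 := hevle p1 (v1 - v2)
          have c3 := abs_le.1 (b3 p1 (Finset.mem_insert_self _ _))
          rw [map_sub] at c2
          linarith [c3.2]
        have c4 : σ / (4 * B * R) ≤ ‖ρ⁻¹ • T v1 - ρ⁻¹ • T v2‖ := by
          rw [← smul_sub, ← map_sub, norm_smul, norm_inv, Real.norm_of_nonneg hρ0.le,
            div_le_iff₀ (by positivity)]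
          have c5 := hTB (v1 - v2)
          have c6 : 1 ≤ ρ⁻¹ * R := by
            rw [← div_eq_inv_mul, le_div_iff₀ hρ0]; linarith
          have c7 : 0 ≤ B * ‖T (v1 - v2)‖ := by positivity
          nlinarith
        have hn : ∀ y : Y, ‖y‖ ≤ ρ → ‖ρ⁻¹ • y‖ ≤ 1 := by
          intro y hy
          rw [norm_smul, norm_inv, Real.norm_of_nonneg hρ0.le, ← div_eq_inv_mul, div_le_one hρ0]
          exact hy
        have c8 := huc (hn _ a1) (hn _ b1) c4
        rw [← smul_add, ← map_add, norm_smul, norm_inv, Real.norm_of_nonneg hρ0.le,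
          ← div_eq_inv_mul, div_le_iff₀ hρ0] at c8
        rw [map_smul, norm_smul, Real.norm_of_nonneg (by norm_num), pow_succ, ← mul_assoc, ← hρ]
        have c9 : 1 - δ0 / 2 ≤ κ := le_max_left _ _
        nlinarith
      · have c1 := a2 z hz
        have c2 := b2 z (Finset.mem_insert_of_mem hz)
        have c3 := abs_sub_le (ev p2 z) (ev p1 z) (ev p z)
        linarith
      · have c1 := abs_le.1 (a3 φ hφ)
        have c2 := abs_le.1 (b3 φ (Finset.mem_insert_of_mem hφ))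
        rw [map_smul, map_add, smul_eq_mul, abs_le]
        constructor <;> linarith [c1.1, c1.2, c2.1, c2.2]
      · have c1 := abs_le.1 (b2 v1 (Finset.mem_insert_self _ _))
        rw [map_smul, map_add, smul_eq_mul]
        linarith [c1.1]
  obtain ⟨m, hm⟩ := exists_pow_lt_of_lt_one (show 0 < σ / (4 * B * R) by positivity) hκ1
  refine ⟨2 ^ m + 0, Set.eq_empty_iff_forall_notMem.2 fun p hp => ?_⟩
  obtain ⟨p', -, v, a1, -, -, a4⟩ := S m 0 p hp ∅ {p} (Finset.mem_singleton_self p) (σ / 4)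
    (by linarith)
  have c1 := hevle p' v
  have c2 := hTB v
  have c3 := mul_le_mul_of_nonneg_left a1 hB0.le
  rw [lt_div_iff₀ (by positivity)] at hm
  nlinarith

theorem unit_sys [TopologicalSpace.SeparableSpace X] (hX : Superreflexive X) {η : ℝ} (hη : 0 < η) :
    ∃ (k : ℕ) (F : X → Ordinal.{0} → ℝ), Sys (ball (0 : X) 1) (ht k) F ∧
      ∀ φ : X →L[ℝ] ℝ, ‖φ‖ ≤ 1 → ∃ ξ, ∀ z ∈ ball (0 : X) 1, |F z ξ - φ z| ≤ 2 * η := by
  let K : Set (WeakDual ℝ X) := WeakDual.toStrongDual ⁻¹' closedBall 0 1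
  have hK : IsCompact K := WeakDual.isCompact_closedBall 0 1
  have : CompactSpace K := isCompact_iff_compactSpace.1 hK
  have hm : TopologicalSpace.MetrizableSpace K := WeakDual.metrizable_of_isCompact ℝ X K hK
  let _ : MetricSpace K := TopologicalSpace.metrizableSpaceMetric K
  let ev : K → X →L[ℝ] ℝ := fun p => WeakDual.toStrongDual p.1
  have hev : ∀ p, ‖ev p‖ ≤ 1 := fun p => mem_closedBall_zero_iff.1 p.2
  have hcont : ∀ z, Continuous fun p => ev p z := fun z =>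
    (WeakDual.eval_continuous z).comp continuous_subtype_val
  obtain ⟨k, hk⟩ := finite_index ev hev hcont hX hη
  obtain ⟨F, f1, f2, -⟩ := good_of_der (e := fun p z => ev p z) (S := ball 0 1) (σ := η) hcont (by
      intro p z w
      rw [← map_sub, dist_eq_norm, ← Real.norm_eq_abs]
      refine ((ev p).le_opNorm _).trans ?_
      have := mul_le_mul_of_nonneg_right (hev p) (norm_nonneg (z - w))
      linarith) (show 0 < η / (k + 1) by positivity) k Set.univ isClosed_univ hk (fun _ => 0)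
      (lip_const 0) η le_rfl
  refine ⟨2 * k, F, f1, fun φ hφ => ?_⟩
  obtain ⟨ξ, hξ⟩ := f2 ⟨StrongDual.toWeakDual φ, mem_closedBall_zero_iff.2 hφ⟩ (Set.mem_univ _)
  refine ⟨ξ, fun z hz => (hξ z hz).trans ?_⟩
  have : (k : ℝ) * (η / (k + 1)) ≤ η := by
    rw [← mul_div_assoc, div_le_iff₀ (by positivity)]
    nlinarith
  linarith

end Pool.Agent.H712Z.CK
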