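import Pool.Agent.H712Z.CK.Cum

set_option autoImplicit false

namespace Pool.Agent.H712Z.CK

open Pool.Agent.H712Z.Cot Filter Topology

lemma rank_lemma (k : ℕ) (w : ℕ → CO (Ordinal.omega0 ^ (k : Ordinal.{0}))) {δ : ℝ} (hδ : 0 < δ)
    (h0 : ∀ ξ, Tendsto (fun n => w n ξ) atTop (𝓝 0))
    (h : ∀ I : Finset ℕ, I.card = k + 1 → ∃ ξ, ∀ n ∈ I, δ ≤ |w n ξ|) : False := by
  classical
  have key : ∀ (i : ℕ) (I : Finset ℕ), I.card + i = k + 1 →
      ∃ ξ : Set.Icc (0 : Ordinal.{0}) (Ordinal.omega0 ^ (k : Ordinal.{0})),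
        (∀ β < ξ.1, β + Ordinal.omega0 ^ (i : Ordinal.{0}) ≤ ξ.1) ∧ (0 < i → 0 < ξ.1) ∧
        ∀ n ∈ I, δ ≤ |w n ξ| := by
    intro i
    induction i with
    | zero =>
      intro I hI
      obtain ⟨ξ, hξ⟩ := h I hI
      refine ⟨ξ, fun β hβ => ?_, fun h => absurd h (lt_irrefl 0), hξ⟩
      simpa using hβ
    | succ i ih =>
      intro I hI
      let E : Set (Set.Icc (0 : Ordinal.{0}) (Ordinal.omega0 ^ (k : Ordinal.{0}))) :=
        {ξ | (∀ β < ξ.1, β + Ordinal.omega0 ^ (i : Ordinal.{0}) ≤ ξ.1) ∧ ∀ n ∈ I, δ ≤ |w n ξ|}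
      have hE : E.Infinite := by
        intro hfin
        have h1 : ∀ᶠ m in atTop, ∀ ξ ∈ E, |w m ξ| < δ := by
          rw [hfin.eventually_all]
          intro ξ _
          have := (h0 ξ).abs
          rw [abs_zero] at this
          exact this.eventually (gt_mem_nhds hδ)
        have h2 : ∀ᶠ m in atTop, m ∉ I := by
          filter_upwards [eventually_gt_atTop (I.sup id)] with m hm hmI
          exact absurd (Finset.le_sup (f := id) hmI) (not_le.2 hm)
        obtain ⟨m, a1, a2⟩ := (h1.and h2).exists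
        obtain ⟨ξ, b1, -, b2⟩ := ih (insert m I) (by rw [Finset.card_insert_of_notMem a2]; omega)
        have := a1 ξ ⟨b1, fun n hn => b2 n (Finset.mem_insert_of_mem hn)⟩
        exact absurd (b2 m (Finset.mem_insert_self _ _)) (not_le.2 this)
      obtain ⟨ξ, -, hξ⟩ := hE.exists_accPt_of_subset_isCompact isCompact_univ (Set.subset_univ _)
      have hξ' := accPt_iff_nhds.1 hξ
      have h1 : ∀ β < ξ.1, β + Ordinal.omega0 ^ (i : Ordinal.{0}) < ξ.1 := by
        intro β hβ
        obtain ⟨η, ⟨a1, a2⟩, a3⟩ := hξ' (Subtype.val ⁻¹' Set.Ioo β (ξ.1 + 1))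
          ((isOpen_Ioo.preimage continuous_subtype_val).mem_nhds ⟨hβ, lt_add_one _⟩)
        have a4 : η.1 ≤ ξ.1 := Order.lt_add_one_iff.1 a1.2
        exact (a2.1 β a1.1).trans_lt (lt_of_le_of_ne a4 (fun e => a3 (Subtype.ext e)))
      refine ⟨ξ, fun β hβ => ?_, fun _ => ?_, fun n hn => ?_⟩
      · have h2 : ∀ m : ℕ, β + Ordinal.omega0 ^ (i : Ordinal.{0}) * m < ξ.1 := by
          intro m
          induction m with
          | zero => simpa using hβ
          | succ m ihm =>
            rw [Nat.cast_succ, mul_add_one, ← add_assoc]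
            exact h1 _ ihm
        by_contra hcon
        obtain ⟨ζ, hζ⟩ := exists_add_of_le hβ.le
        rw [not_le, hζ, Nat.cast_succ, Ordinal.opow_add, Ordinal.opow_one] at hcon
        obtain ⟨q, hq, r, hr, e⟩ := Ordinal.lt_mul_iff.1 (lt_of_add_lt_add_left hcon)
        obtain ⟨m, rfl⟩ := Ordinal.lt_omega0.1 hq
        have h3 := h2 (m + 1)
        rw [hζ, e, Nat.cast_succ, mul_add_one] at h3
        exact absurd (lt_of_add_lt_add_left (lt_of_add_lt_add_left h3)) (not_lt.2 hr.le)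
      · obtain ⟨η, ⟨a1, -⟩, a3⟩ := hξ' (Subtype.val ⁻¹' Set.Iio (ξ.1 + 1))
          ((isOpen_Iio.preimage continuous_subtype_val).mem_nhds (lt_add_one ξ.1))
        have a4 : η.1 ≤ ξ.1 := Order.lt_add_one_iff.1 a1
        exact lt_of_le_of_lt η.2.1 (lt_of_le_of_ne a4 (fun e => a3 (Subtype.ext e)))
      · have h2 : IsClosed {ξ | δ ≤ |w n ξ|} := isClosed_le continuous_const (by fun_prop)
        exact h2.closure_subset_iff.2 (fun η (hη : η ∈ E) => hη.2 n hn)
          (mem_closure_iff_clusterPt.2 hξ.clusterPt)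
  obtain ⟨ξ, a1, a2, -⟩ := key (k + 1) ∅ (by simp)
  have a3 := (a1 0 (a2 (Nat.succ_pos k))).trans ξ.2.2
  rw [zero_add, Ordinal.opow_le_opow_iff_right Ordinal.one_lt_omega0] at a3
  have : k + 1 ≤ k := by exact_mod_cast a3
  omega

theorem two_le_of_sets (k : ℕ) {M : Type} [MetricSpace M] (a : ℕ → M) (x : Finset ℕ → M) (o : M)
    (ha : ∀ n, dist (a n) o ≤ 1) (hx : ∀ A, ∀ n ∈ A, dist (x A) (a n) ≤ 1)
    (hxy : ∀ A B : Finset ℕ, Disjoint A B → A.card = k + 1 → B.card = k + 1 → 4 ≤ dist (x A) (x B)) :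
    2 ≤ cEmb (CO (Ordinal.omega0 ^ (k : Ordinal.{0}))) M := by
  classical
  have := countable_Icc (α := (k : Ordinal.{0}))
    ((Ordinal.natCast_lt_omega0 k).trans Ordinal.omega0_lt_omega_one)
  refine two_le_cEmb (fun f c b hc hb hab h1 h2 => ?_)
  have hδ : 0 < 4 / b - 2 * c := by
    rw [sub_pos, lt_div_iff₀ hb]; linarith
  obtain ⟨g, -, φ, hφ, hg⟩ := (isCompact_univ_pi (fun ξ => isCompact_Icc (a := f o ξ - c)
    (b := f o ξ + c))).tendsto_subseq (x := fun n ξ => f (a n) ξ) (by
      intro n ξ _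
      have a1 := ContinuousMap.dist_apply_le_dist (f := f (a n)) (g := f o) ξ
      have a2 := h1 (a n) o
      have a3 := mul_le_mul_of_nonneg_left (ha n) hc
      rw [Real.dist_eq, abs_le] at a1
      constructor <;> linarith [a1.1, a1.2])
  refine rank_lemma k (fun n => f (a (φ (2 * n))) - f (a (φ (2 * n + 1)))) hδ (fun ξ => ?_)
    (fun I hI => ?_)
  · have a1 := tendsto_pi_nhds.1 hg ξ
    have a2 : Tendsto (fun n : ℕ => 2 * n) atTop atTop :=
      tendsto_atTop_mono (fun n => by simp only [id]; omega) tendsto_id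
    have a3 : Tendsto (fun n : ℕ => 2 * n + 1) atTop atTop :=
      tendsto_atTop_mono (fun n => by simp only [id]; omega) tendsto_id
    have := (a1.comp a2).sub (a1.comp a3)
    rw [sub_self] at this
    exact this
  · have a0 := hxy (I.image (fun n => φ (2 * n))) (I.image (fun n => φ (2 * n + 1))) (by
        rw [Finset.disjoint_left]
        intro y hy hy'
        obtain ⟨n, -, rfl⟩ := Finset.mem_image.1 hy
        obtain ⟨m, -, e⟩ := Finset.mem_image.1 hy'
        have := hφ.injective e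
        omega) (by
        rw [Finset.card_image_of_injective _ (fun n m e => by have := hφ.injective e; omega), hI])
      (by
        rw [Finset.card_image_of_injective _ (fun n m e => by have := hφ.injective e; omega), hI])
    obtain ⟨ξ, σ, H⟩ := exists_gap (f (x (I.image (fun n => φ (2 * n)))))
      (f (x (I.image (fun n => φ (2 * n + 1))))) (D := 4 / b) (by positivity) (by
        rw [div_le_iff₀ hb]
        have := h2 (x (I.image (fun n => φ (2 * n)))) (x (I.image (fun n => φ (2 * n + 1))))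
        linarith)
    refine ⟨ξ, fun n hn => ?_⟩
    have a1 := sg_mul_le σ (f (x (I.image (fun n => φ (2 * n))))) (f (a (φ (2 * n)))) ξ
    have a2 := sg_mul_le σ (f (a (φ (2 * n + 1)))) (f (x (I.image (fun n => φ (2 * n + 1))))) ξ
    have a3 := h1 (x (I.image (fun n => φ (2 * n)))) (a (φ (2 * n)))
    have a4 := h1 (a (φ (2 * n + 1))) (x (I.image (fun n => φ (2 * n + 1))))
    have a5 := mul_le_mul_of_nonneg_left
      (hx _ _ (Finset.mem_image_of_mem (fun n => φ (2 * n)) hn)) hc
    have a6 := mul_le_mul_of_nonneg_left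
      (hx _ _ (Finset.mem_image_of_mem (fun n => φ (2 * n + 1)) hn)) hc
    rw [dist_comm] at a6
    have a7 := le_abs_self (sg σ * (f (a (φ (2 * n))) ξ - f (a (φ (2 * n + 1))) ξ))
    rw [abs_mul, abs_sg, one_mul] at a7
    rw [ContinuousMap.sub_apply]
    linarith

/-- the norming functionals -/
noncomputable def gf (A B : Finset ℕ) (μ : ℕ ⊕ Finset ℕ →₀ ℝ) : ℝ :=
  2 * μ (Sum.inr A) - 2 * μ (Sum.inr B) + ∑ n ∈ A, μ (Sum.inl n) - ∑ n ∈ B, μ (Sum.inl n)

theorem two_le_sr (k : ℕ) : 2 ≤ classVal (Ordinal.omega0 ^ (k : Ordinal.{0})) Superreflexive := by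
  classical
  let H := lp (fun _ : ℕ ⊕ Finset ℕ => ℝ) 2
  let e : (ℕ ⊕ Finset ℕ →₀ ℝ) →ₗ[ℝ] H :=
    Finsupp.linearCombination ℝ (fun i => lp.single 2 i (1 : ℝ))
  have he1 : ∀ i c, e (Finsupp.single i c) = lp.single 2 i c := by
    intro i c
    simp only [e, Finsupp.linearCombination_single]
    rw [← lp.single_smul, smul_eq_mul, mul_one]
  have he2 : ∀ μ i, e μ i = μ i := by
    intro μ i
    induction μ using Finsupp.induction_linear with
    | zero => simp
    | add μ ν a b => rw [map_add, lp.coeFn_add, Pi.add_apply, a, b, Finsupp.add_apply]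
    | single j c => rw [he1, lp.single_apply, Finsupp.single_apply, Pi.single_apply]; simp [eq_comm]
  have he3 : ∀ μ i, |μ i| ≤ ‖e μ‖ := by
    intro μ i
    rw [← he2]
    exact lp.norm_apply_le_norm (by norm_num) (e μ) i
  have he4 : DenseRange e := by
    intro w
    refine mem_closure_of_tendsto (lp.hasSum_single (p := 2) (by norm_num) w)
      (Eventually.of_forall (fun s => ⟨∑ i ∈ s, Finsupp.single i (w i), ?_⟩))
    simp only [map_sum, he1]
  have he5 : ∀ i, ‖e (Finsupp.single i 1)‖ = 1 := by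
    intro i
    rw [he1, lp.norm_single (by norm_num)]; simp
  have hg : ∀ μ (A B : Finset ℕ), A.card = k + 1 → B.card = k + 1 →
      |gf A B μ| ≤ (2 * k + 6) * ‖e μ‖ := by
    intro μ A B hA hB
    have a1 : ∀ C : Finset ℕ, C.card = k + 1 → |∑ n ∈ C, μ (Sum.inl n)| ≤ (k + 1) * ‖e μ‖ := by
      intro C hC
      refine (Finset.abs_sum_le_sum_abs _ _).trans
        ((Finset.sum_le_sum (fun n _ => he3 μ _)).trans ?_)
      rw [Finset.sum_const, hC, nsmul_eq_mul]; push_cast; exact le_rfl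
    have a2 := abs_le.1 (a1 A hA)
    have a3 := abs_le.1 (a1 B hB)
    have a4 := abs_le.1 (he3 μ (Sum.inr A))
    have a5 := abs_le.1 (he3 μ (Sum.inr B))
    rw [gf, abs_le]
    constructor <;> linarith [a2.1, a2.2, a3.1, a3.2, a4.1, a4.2, a5.1, a5.2]
  have hk : (0 : ℝ) ≤ k := Nat.cast_nonneg k
  obtain ⟨N, h1, h2⟩ := exists_seminorm (fun (μ : ℕ ⊕ Finset ℕ →₀ ℝ) ρ =>
      (∀ A B : Finset ℕ, Disjoint A B → A.card = k + 1 → B.card = k + 1 → |gf A B μ| ≤ ρ) ∧
        ‖e μ‖ ≤ 2 * ρ)
    (fun v ρ h => by linarith [h.2, norm_nonneg (e v)])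
    (fun v => ⟨(2 * k + 6) * ‖e v‖, fun A B _ => hg v A B, by nlinarith [norm_nonneg (e v)]⟩)
    (fun v w ρ τ a b => ⟨fun A B c1 c2 c3 => by
      have e1 : gf A B (v + w) = gf A B v + gf A B w := by
        simp only [gf, Finsupp.add_apply, Finset.sum_add_distrib]; ring
      rw [e1]
      exact (abs_add_le _ _).trans (add_le_add (a.1 A B c1 c2 c3) (b.1 A B c1 c2 c3)), by
      rw [map_add]; linarith [norm_add_le (e v) (e w), a.2, b.2]⟩)
    (fun c v ρ a => ⟨fun A B c1 c2 c3 => by
      have e1 : gf A B (c • v) = c * gf A B v := by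
        simp only [gf, Finsupp.smul_apply, smul_eq_mul, ← Finset.mul_sum]; ring
      rw [e1, abs_mul]
      exact mul_le_mul_of_nonneg_left (a.1 A B c1 c2 c3) (abs_nonneg c), by
      rw [map_smul, norm_smul, Real.norm_eq_abs, mul_left_comm]
      exact mul_le_mul_of_nonneg_left a.2 (abs_nonneg c)⟩)
    (fun v ρ τ a b => ⟨fun A B c1 c2 c3 => (a.1 A B c1 c2 c3).trans b, by linarith [a.2]⟩)
  obtain ⟨X, i1, i2, i3, i4, j, hj, hN⟩ := exists_completion N _ (Set.countable_range _) span_single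
  have hc : Superreflexive X := by
    refine ⟨H, inferInstance, inferInstance, inferInstance, ⟨(LinearEquiv.refl ℝ _).extend j e hj
      ⟨2, fun v => ?_⟩ he4 ⟨2 * k + 6, fun v => ?_⟩⟩⟩
    · rw [hN]
      refine le_of_forall_pos_le_add (fun ε hε => ?_)
      have := (h2 v (N v + ε / 2) (by linarith)).2
      simp only [LinearEquiv.refl_apply]
      linarith
    · rw [hN]
      exact h1 v _ ⟨fun A B _ => hg v A B, by nlinarith [norm_nonneg (e v)]⟩
  have hs : ∀ (n : ℕ) (C : Finset ℕ), ∑ m ∈ C, (Finsupp.single (Sum.inl n) (1 : ℝ) :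
      ℕ ⊕ Finset ℕ →₀ ℝ) (Sum.inl m) = if n ∈ C then 1 else 0 := by
    intro n C
    simp [Finsupp.single_apply]
  have h3 := two_le_of_sets k (fun n => j (Finsupp.single (Sum.inl n) 1))
    (fun A => j (Finsupp.single (Sum.inr A) 1)) 0 (fun n => by
      rw [dist_zero_right, hN]
      refine h1 _ _ ⟨fun A B _ _ _ => ?_, by rw [he5]; norm_num⟩
      rw [gf, hs, hs]
      split_ifs <;> simp) (fun A n hn => by
      rw [dist_eq_norm, ← map_sub, hN]
      refine h1 _ _ ⟨fun A' B' c1 c2 c3 => ?_, ?_⟩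
      · simp only [gf, Finsupp.sub_apply, Finset.sum_sub_distrib, hs]
        have d1 := Finset.disjoint_left.1 c1
        by_cases e1 : A = A'
        · subst e1
          have e2 : A ≠ B' := fun e => d1 hn (e ▸ hn)
          simp [Finsupp.single_apply, hn, d1 hn, e2]
          norm_num
        · by_cases e2 : A = B'
          · subst e2
            have e3 : n ∉ A' := fun h => d1 h hn
            simp [Finsupp.single_apply, hn, e1, e3]
            norm_num
          · simp only [Finsupp.single_apply, Sum.inr.injEq, e1, e2, reduceCtorEq, if_false]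
            split_ifs <;> simp
      · rw [map_sub]
        refine (norm_sub_le _ _).trans ?_
        rw [he5, he5]; norm_num) (fun A B c1 c2 c3 => by
      rw [dist_eq_norm, ← map_sub, hN]
      by_contra hcon
      obtain ⟨ρ, a1, a2⟩ := exists_between (not_le.1 hcon)
      have a3 := (h2 _ _ a1).1 A B c1 c2 c3
      have e1 : A ≠ B := by
        rintro rfl
        rw [disjoint_self, Finset.bot_eq_empty] at c1
        rw [c1] at c2
        simp at c2
      simp [gf, Finsupp.single_apply, e1, e1.symm] at a3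
      norm_num at a3
      linarith)
  refine h3.trans ?_
  unfold classVal
  exact le_iSup_of_le X (le_iSup_of_le i1 (le_iSup_of_le i2 (le_iSup_of_le i3 (le_iSup_of_le i4
    (le_iSup_of_le hc le_rfl)))))

end Pool.Agent.H712Z.CK
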