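import Pool.Agent.H712Z.CK.Trunc
import Pool.Agent.H712Z.Cot.Space

set_option autoImplicit false

namespace Pool.Agent.H712Z.CK

open Pool.Agent.H712Z.Cot

/-- size of a vector at level `k` -/
def Lev (k : ℤ) (u : VV) (J : ℝ) : Prop := SB u (J / 2 ^ k) ∧ l1 u ≤ 2 ^ k * J

lemma Lev.nonneg {k : ℤ} {u : VV} {J : ℝ} (h : Lev k u J) : 0 ≤ J := by
  have h1 := (l1_nonneg u).trans h.2
  have h2 : (0 : ℝ) < 2 ^ k := by positivity
  by_contra hc
  nlinarith [not_le.1 hc]

lemma lev_zero (k : ℤ) : Lev k 0 0 := ⟨by simpa using sb_zero, by simp [l1]⟩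

/-- decompositions into levels -/
def Dec (μ : VV) (ρ : ℝ) : Prop :=
  0 ≤ ρ ∧ ∃ (T : Finset ℤ) (u : ℤ → VV) (J : ℤ → ℝ), (∀ k, Lev k (u k) (J k)) ∧
    ∀ T', T ⊆ T' → μ = ∑ k ∈ T', u k ∧ ∑ k ∈ T', J k ^ 2 ≤ ρ ^ 2

lemma dec_shift (l : ℤ) (T : Finset ℤ) (u : ℤ → VV) (J : ℤ → ℝ) {ρ : ℝ} (hρ : 0 ≤ ρ)
    (h : ∀ k ∈ T, Lev (k + l) (u k) (J k)) (h2 : ∑ k ∈ T, J k ^ 2 ≤ ρ ^ 2) :
    Dec (∑ k ∈ T, u k) ρ := by
  classical
  refine ⟨hρ, T.map (addRightEmbedding l), fun k => if k - l ∈ T then u (k - l) else 0,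
    fun k => if k - l ∈ T then J (k - l) else 0, fun k => ?_, fun T' hT' => ?_⟩
  · beta_reduce
    split_ifs with hk
    · simpa using h _ hk
    · exact lev_zero k
  · have h3 : ∀ k ∈ T', k ∉ T.map (addRightEmbedding l) → k - l ∉ T := by
      intro k _ hk hc
      exact hk (Finset.mem_map.2 ⟨k - l, hc, by simp⟩)
    rw [← Finset.sum_subset hT' (fun k a b => by simp [h3 k a b]),
      ← Finset.sum_subset hT' (fun k a b => by simp [h3 k a b]), Finset.sum_map, Finset.sum_map]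
    refine ⟨Finset.sum_congr rfl (fun k hk => by simp [hk]), le_trans (le_of_eq ?_) h2⟩
    exact Finset.sum_congr rfl (fun k hk => by simp [hk])

lemma dec_l1 (μ : VV) : Dec μ (2 * l1 μ) := by
  have h0 := l1_nonneg μ
  have := dec_shift 0 {0} (fun _ => μ) (fun _ => 2 * l1 μ) (ρ := 2 * l1 μ) (by linarith) (by
    intro k hk
    rw [Finset.mem_singleton.1 hk]
    refine ⟨fun l => ?_, by simp; linarith⟩
    have a1 := abs_cum_le l μ
    have a2 := abs_apply_le l μ
    have a3 := abs_sub (cum l μ) (μ l)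
    simp only [add_zero, zpow_zero, div_one]
    constructor <;> linarith) (by simp)
  simpa using this

lemma Dec.mono {μ : VV} {ρ τ : ℝ} (h : Dec μ ρ) (h' : ρ ≤ τ) : Dec μ τ := by
  obtain ⟨h0, T, u, J, h1, h2⟩ := h
  exact ⟨h0.trans h', T, u, J, h1, fun T' hT' => ⟨(h2 T' hT').1,
    (h2 T' hT').2.trans (pow_le_pow_left₀ h0 h' 2)⟩⟩

lemma Dec.smul {μ : VV} {ρ : ℝ} (h : Dec μ ρ) (c : ℝ) : Dec (c • μ) (|c| * ρ) := by
  obtain ⟨h0, T, u, J, h1, h2⟩ := h
  refine ⟨by positivity, T, fun k => c • u k, fun k => |c| * J k, fun k => ⟨?_, ?_⟩,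
    fun T' hT' => ⟨?_, ?_⟩⟩
  · rw [mul_div_assoc]; exact (h1 k).1.smul c
  · rw [l1_smul, mul_left_comm]; exact mul_le_mul_of_nonneg_left (h1 k).2 (abs_nonneg c)
  · rw [(h2 T' hT').1, Finset.smul_sum]
  · simp only [mul_pow]
    rw [← Finset.mul_sum]
    exact mul_le_mul_of_nonneg_left (h2 T' hT').2 (by positivity)

lemma Dec.add {μ ν : VV} {ρ τ : ℝ} (h : Dec μ ρ) (h' : Dec ν τ) : Dec (μ + ν) (ρ + τ) := by
  classical
  obtain ⟨h0, T, u, J, h1, h2⟩ := h
  obtain ⟨h0', T1, u', J', h1', h2'⟩ := h'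
  refine ⟨by positivity, T ∪ T1, fun k => u k + u' k, fun k => J k + J' k, fun k => ⟨?_, ?_⟩,
    fun T' hT' => ?_⟩
  · rw [add_div]; exact (h1 k).1.add (h1' k).1
  · rw [mul_add]; exact (l1_add _ _).trans (add_le_add (h1 k).2 (h1' k).2)
  · obtain ⟨a1, a2⟩ := h2 T' (Finset.subset_union_left.trans hT')
    obtain ⟨b1, b2⟩ := h2' T' (Finset.subset_union_right.trans hT')
    refine ⟨by rw [a1, b1, Finset.sum_add_distrib], ?_⟩
    have c1 := Finset.sum_mul_sq_le_sq_mul_sq T' J J'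
    have c2 : (∑ k ∈ T', J k * J' k) ^ 2 ≤ (ρ * τ) ^ 2 := by
      rw [mul_pow]
      exact c1.trans (mul_le_mul a2 b2 (Finset.sum_nonneg (fun _ _ => sq_nonneg _)) (sq_nonneg _))
    have c3 := (abs_le_of_sq_le_sq' c2 (by positivity)).2
    simp only [add_sq, Finset.sum_add_distrib, mul_assoc]
    rw [← Finset.mul_sum]
    linarith

lemma Dec.cum_le {μ : VV} {ρ : ℝ} (h : Dec μ ρ) (l : WithBot ℚ) : |cum l μ| ≤ 4 * ρ := by
  classical
  obtain ⟨h0, T, u, J, h1, h2⟩ := h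
  obtain ⟨a1, a2⟩ := h2 T subset_rfl
  have h3 : ∀ k ∈ T, |cum l (u k)| ≤ ρ * (1 / 2) ^ k.natAbs := by
    intro k hk
    have b1 : J k ≤ ρ := (abs_le_of_sq_le_sq' ((Finset.single_le_sum (f := fun k => J k ^ 2)
      (fun _ _ => sq_nonneg _) hk).trans a2) h0).2
    obtain ⟨n, rfl | rfl⟩ := Int.eq_nat_or_neg k
    · refine ((h1 _).1 l).1.trans ?_
      rw [Int.natAbs_natCast, zpow_natCast, one_div, inv_pow, ← div_eq_mul_inv]
      gcongr
    · refine ((abs_cum_le l _).trans (h1 _).2).trans ?_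
      rw [Int.natAbs_neg, Int.natAbs_natCast, zpow_neg, zpow_natCast, one_div, inv_pow, mul_comm]
      gcongr
  rw [a1, map_sum]
  refine (Finset.abs_sum_le_sum_abs _ _).trans ((Finset.sum_le_sum h3).trans ?_)
  rw [← Finset.mul_sum, ← Finset.sum_filter_add_sum_filter_not T (fun k => 0 ≤ k), mul_comm]
  have b1 := sum_geo_inj (T.filter (fun k => 0 ≤ k)) Int.natAbs (by
    intro i hi j hj hij
    simp only [Finset.coe_filter, Set.mem_ofPred_eq] at hi hj
    omega) (1 / 2) (by norm_num) (by norm_num)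
  have b2 := sum_geo_inj (T.filter (fun k => ¬ 0 ≤ k)) Int.natAbs (by
    intro i hi j hj hij
    simp only [Finset.coe_filter, Set.mem_ofPred_eq] at hi hj
    omega) (1 / 2) (by norm_num) (by norm_num)
  norm_num at b1 b2 ⊢
  exact mul_le_mul_of_nonneg_right (by linarith) h0

lemma weak {ι : Type} [Fintype ι] [DecidableEq ι] (s : Finset ι) (x : ι → VV) {ρ : ℝ} (hρ : 0 < ρ)
    (l : ℕ) (hs : s.card ≤ 256 ^ l) (hx : ∀ i, Dec (x i) ρ) :
    ∃ R : (ι → Bool) → ℝ, (∀ ε, Dec (∑ i ∈ s, sg (ε i) • x i) (R ε)) ∧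
      ∑ ε, R ε ≤ 5 * 2 ^ Fintype.card ι * (128 ^ l * ρ) := by
  classical
  choose T0 u J h1 h2 using fun i => (hx i).2
  set T := Finset.univ.biUnion T0 with hT
  have h3 := fun i => h2 i T (Finset.subset_biUnion_of_mem T0 (Finset.mem_univ i))
  let σ : ℤ → ℝ := fun k => √(∑ i ∈ s, J i k ^ 2)
  have hσ0 : ∀ k, 0 ≤ σ k := fun k => Real.sqrt_nonneg _
  have hσ2 : ∀ k, σ k ^ 2 = ∑ i ∈ s, J i k ^ 2 := fun k =>
    Real.sq_sqrt (Finset.sum_nonneg (fun _ _ => sq_nonneg _))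
  have hs' : (s.card : ℝ) ≤ 256 ^ l := by exact_mod_cast hs
  set a : ℝ := 2 ^ l with ha
  have ha0 : 0 < a := by positivity
  have e256 : (256 : ℝ) ^ l = a ^ 8 := by rw [ha, ← pow_mul, mul_comm, pow_mul]; norm_num
  have e128 : (128 : ℝ) ^ l = a ^ 7 := by rw [ha, ← pow_mul, mul_comm, pow_mul]; norm_num
  rw [e256] at hs'
  have hA2 : ∀ k, (∑ i ∈ s, J i k) ^ 2 ≤ (a ^ 4 * σ k) ^ 2 := by
    intro k
    refine sq_sum_le_card_mul_sum_sq.trans ?_
    rw [mul_pow, hσ2, ← pow_mul]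
    exact mul_le_mul_of_nonneg_right hs' (Finset.sum_nonneg (fun _ _ => sq_nonneg _))
  have hA : ∀ k, ∑ i ∈ s, J i k ≤ a ^ 4 * σ k := fun k =>
    (abs_le_of_sq_le_sq' (hA2 k) (by have := hσ0 k; positivity)).2
  have hσT : ∑ k ∈ T, σ k ^ 2 ≤ a ^ 8 * ρ ^ 2 := by
    simp only [hσ2]
    rw [Finset.sum_comm]
    refine (Finset.sum_le_sum (fun i _ => (h3 i).2)).trans ?_
    rw [Finset.sum_const, nsmul_eq_mul]
    exact mul_le_mul_of_nonneg_right hs' (sq_nonneg _)
  choose G0 G1 B g1 g2 using fun k : ℤ => level s (fun i => u i k) (fun i => J i k)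
    (b := 2 ^ k) (ν := a ^ 2) (by positivity) (by positivity) (hσ0 k) (hσ2 k)
    (fun i => (h1 i k).1) (fun i => (h1 i k).2)
  let J0 : (ι → Bool) → ℤ → ℝ := fun ε k => a ^ 3 * σ k + a * B k ε
  let R0 : (ι → Bool) → ℝ := fun ε => √(∑ k ∈ T, J0 ε k ^ 2)
  have hR0 : ∀ ε, R0 ε ^ 2 = ∑ k ∈ T, J0 ε k ^ 2 := fun ε =>
    Real.sq_sqrt (Finset.sum_nonneg (fun _ _ => sq_nonneg _))
  refine ⟨fun ε => R0 ε + a ^ 7 * ρ, fun ε => ?_, ?_⟩
  · have e : ∑ i ∈ s, sg (ε i) • x i = ∑ k ∈ T, G0 k ε + ∑ k ∈ T, G1 k ε := by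
      rw [← Finset.sum_add_distrib, ← Finset.sum_congr rfl (fun k _ => (g1 k ε).1),
        Finset.sum_comm]
      exact Finset.sum_congr rfl (fun i _ => by rw [(h3 i).1, Finset.smul_sum])
    rw [e]
    refine Dec.add (dec_shift (-l) T _ (J0 ε) (Real.sqrt_nonneg _) (fun k _ => ?_) (hR0 ε).ge)
      (dec_shift l T _ (fun k => a ^ 3 * σ k) (by positivity) (fun k _ => ?_) ?_)
    · obtain ⟨-, -, -, b1, b2, b3⟩ := g1 k ε
      have hk : (0 : ℝ) < 2 ^ k := by positivity
      have e2 : (2 : ℝ) ^ (k + -(l : ℤ)) = 2 ^ k / a := by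
        rw [zpow_add₀ (by norm_num), zpow_neg, zpow_natCast, div_eq_mul_inv]
      have b4 := hA k
      have b5 := hσ0 k
      refine ⟨b1.mono ?_, b3.trans ?_⟩
      · rw [e2, div_div_eq_mul_div]
        refine div_le_div_of_nonneg_right (b4.trans ?_) hk.le
        have : 0 ≤ a * B k ε * a := by positivity
        simp only [J0]
        nlinarith
      · rw [e2, div_mul_eq_mul_div, le_div_iff₀ ha0, mul_assoc]
        refine mul_le_mul_of_nonneg_left ?_ hk.le
        have : 0 ≤ a ^ 3 * σ k := by positivity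
        simp only [J0]
        linarith
    · obtain ⟨-, b1, b2, -⟩ := g1 k ε
      have hk : (0 : ℝ) < 2 ^ k := by positivity
      have e2 : (2 : ℝ) ^ (k + (l : ℤ)) = 2 ^ k * a := by
        rw [zpow_add₀ (by norm_num), zpow_natCast]
      refine ⟨b1.mono (le_of_eq ?_), b2.trans ?_⟩
      · rw [e2]; field_simp
      · rw [e2, mul_assoc]
        refine mul_le_mul_of_nonneg_left ((hA k).trans (le_of_eq ?_)) hk.le
        ring
    · simp only [mul_pow]
      rw [← Finset.mul_sum]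
      refine (mul_le_mul_of_nonneg_left hσT (by positivity)).trans (le_of_eq ?_)
      ring
  · set P : ℝ := 2 ^ Fintype.card ι with hP
    have hP0 : 0 < P := by positivity
    have hcard : ((Finset.univ : Finset (ι → Bool)).card : ℝ) = P := by
      rw [Finset.card_univ, Fintype.card_fun, hP]; simp
    have b1 : ∀ k, ∑ ε, J0 ε k ^ 2 ≤ 6 * P * a ^ 6 * σ k ^ 2 := by
      intro k
      have c1 : ∑ ε, J0 ε k ^ 2 ≤ ∑ ε : ι → Bool, (2 * (a ^ 3 * σ k) ^ 2 + 2 * a ^ 2 * B k ε ^ 2) :=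
        Finset.sum_le_sum (fun ε _ => by
          simp only [J0]; nlinarith [sq_nonneg (a ^ 3 * σ k - a * B k ε)])
      rw [Finset.sum_add_distrib, Finset.sum_const, nsmul_eq_mul, hcard, ← Finset.mul_sum] at c1
      have c2 := (g2 k).trans (mul_le_mul_of_nonneg_left (hA2 k) (by positivity))
      have c3 : a ^ 2 * ∑ ε, B k ε ^ 2 ≤ 2 * P * a ^ 6 * σ k ^ 2 := by
        refine le_of_mul_le_mul_left ?_ (show 0 < a ^ 2 by positivity)
        linarith
      linarith
    have b2 : ∑ ε, R0 ε ^ 2 ≤ 6 * P * (a ^ 7 * ρ) ^ 2 := by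
      simp only [hR0]
      rw [Finset.sum_comm]
      refine (Finset.sum_le_sum (fun k _ => b1 k)).trans ?_
      rw [← Finset.mul_sum]
      refine (mul_le_mul_of_nonneg_left hσT (by positivity)).trans (le_of_eq ?_)
      ring
    rw [e128]
    set M := a ^ 7 * ρ with hM
    have hM0 : 0 < M := by positivity
    have b3 : 2 * M * ∑ ε, R0 ε ≤ ∑ ε : ι → Bool, (R0 ε ^ 2 + M ^ 2) := by
      rw [Finset.mul_sum]
      exact Finset.sum_le_sum (fun ε _ => by nlinarith [sq_nonneg (R0 ε - M)])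
    rw [Finset.sum_add_distrib, Finset.sum_const, nsmul_eq_mul, hcard] at b3 ⊢
    have b4 : ∑ ε, R0 ε ≤ 4 * P * M := by
      refine le_of_mul_le_mul_left ?_ (show 0 < 2 * M by positivity)
      have : 0 ≤ P * M ^ 2 := by positivity
      nlinarith
    linarith

lemma strong_type {V : Type} [AddCommGroup V] [Module ℝ V] (N : Seminorm ℝ V) {C : ℝ} (hC : 0 ≤ C)
    (h : ∀ (n : ℕ) (s : Finset (Fin n)) (x : Fin n → V) (ρ : ℝ) (l : ℕ), 0 < ρ → s.card ≤ 256 ^ l →
      (∀ i ∈ s, N (x i) ≤ ρ) →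
      ∑ ε : Fin n → Bool, N (∑ i ∈ s, sg (ε i) • x i) ≤ C * 2 ^ n * (128 ^ l * ρ))
    (n : ℕ) (x : Fin n → V) :
    (∑ ε : Fin n → Bool, N (∑ i, sg (ε i) • x i)) / 2 ^ n ≤
      (1152 * C) * (∑ i, N (x i) ^ Real.logb 144 256) ^ (1 / Real.logb 144 256) := by
  classical
  set p := Real.logb 144 256 with hp
  have hp0 : 0 < p := Real.logb_pos (by norm_num) (by norm_num)
  have hp1 : (144 : ℝ) ^ p = 256 := Real.rpow_logb (by norm_num) (by norm_num) (by norm_num)
  set S := ∑ i, N (x i) ^ p with hS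
  have hS0 : 0 ≤ S := Finset.sum_nonneg (fun i _ => by positivity)
  set B := S ^ (1 / p) with hB
  have hB0 : 0 ≤ B := by positivity
  have hBp : B ^ p = S := by
    rw [hB, ← Real.rpow_mul hS0, one_div_mul_cancel hp0.ne', Real.rpow_one]
  have hNB : ∀ i, N (x i) ≤ B := by
    intro i
    rw [← Real.rpow_le_rpow_iff (by positivity) hB0 hp0, hBp]
    exact Finset.single_le_sum (f := fun i => N (x i) ^ p) (fun i _ => by positivity)
      (Finset.mem_univ i)
  set s0 := Finset.univ.filter (fun i => 0 < N (x i)) with hs0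
  have hlev : ∀ i, ∃ l : ℕ, i ∈ s0 → B * (1 / 144) ^ (l + 1) < N (x i) ∧
      N (x i) ≤ B * (1 / 144) ^ l := by
    intro i
    by_cases hi : i ∈ s0
    · have a1 : 0 < N (x i) := (Finset.mem_filter.1 hi).2
      have a2 : 0 < B := a1.trans_le (hNB i)
      obtain ⟨l, b1, b2⟩ := exists_nat_pow_near_of_lt_one (x := N (x i) / B) (y := (1 / 144 : ℝ))
        (by positivity) ((div_le_one a2).2 (hNB i)) (by norm_num) (by norm_num)
      rw [lt_div_iff₀ a2] at b1
      rw [div_le_iff₀ a2] at b2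
      exact ⟨l, fun _ => ⟨by linarith, by linarith⟩⟩
    · exact ⟨0, fun h => absurd h hi⟩
  choose lev hlev using hlev
  set L := s0.image lev with hL
  have h1 : ∀ ε : Fin n → Bool, N (∑ i, sg (ε i) • x i) ≤
      ∑ l ∈ L, N (∑ i ∈ s0.filter (fun i => lev i = l), sg (ε i) • x i) := by
    intro ε
    rw [← Finset.sum_filter_add_sum_filter_not Finset.univ (fun i => 0 < N (x i)), ← hs0,
      ← Finset.sum_fiberwise_of_maps_to (s := s0) (t := L) (g := lev)
        (fun i hi => Finset.mem_image_of_mem _ hi)]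
    refine (map_add_le_add N _ _).trans ?_
    have a1 : N (∑ i ∈ Finset.univ.filter (fun i => ¬ 0 < N (x i)), sg (ε i) • x i) ≤ 0 := by
      refine (Finset.le_sum_of_subadditive N (map_zero N).le (map_add_le_add N) _ _).trans ?_
      refine Finset.sum_nonpos (fun i hi => ?_)
      rw [map_smul_eq_mul, Real.norm_eq_abs, abs_sg, one_mul]
      exact not_lt.1 (Finset.mem_filter.1 hi).2
    have a2 := Finset.le_sum_of_subadditive N (map_zero N).le (map_add_le_add N) L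
      (fun l => ∑ i ∈ s0.filter (fun i => lev i = l), sg (ε i) • x i)
    linarith
  have h2 : ∀ l ∈ L, ∑ ε : Fin n → Bool, N (∑ i ∈ s0.filter (fun i => lev i = l), sg (ε i) • x i)
      ≤ (128 * C * 2 ^ n * B) * (8 / 9) ^ l := by
    intro l hl
    obtain ⟨i0, hi0, -⟩ := Finset.mem_image.1 hl
    have a2 : 0 < B := (Finset.mem_filter.1 hi0).2.trans_le (hNB i0)
    refine (h n _ x (B * (1 / 144) ^ l) (l + 1) (by positivity) ?_ ?_).trans (le_of_eq ?_)
    · have a3 : ∀ i ∈ s0.filter (fun i => lev i = l), S / 256 ^ (l + 1) ≤ N (x i) ^ p := by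
        intro i hi
        obtain ⟨b1, b2⟩ := Finset.mem_filter.1 hi
        have b3 := (hlev i b1).1
        rw [b2] at b3
        refine le_trans (le_of_eq ?_) (Real.rpow_le_rpow (by positivity) b3.le hp0.le)
        rw [Real.mul_rpow hB0 (by positivity), hBp, ← Real.rpow_natCast (1 / 144 : ℝ),
          ← Real.rpow_mul (by norm_num), mul_comm _ p, Real.rpow_mul (by norm_num),
          Real.div_rpow (by norm_num) (by norm_num), hp1, Real.one_rpow, Real.rpow_natCast]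
        rw [one_div, inv_pow, div_eq_mul_inv]
      have a4 := Finset.card_nsmul_le_sum _ _ _ a3
      have a5 : ∑ i ∈ s0.filter (fun i => lev i = l), N (x i) ^ p ≤ S :=
        Finset.sum_le_sum_of_subset_of_nonneg (Finset.subset_univ _) (fun i _ _ => by positivity)
      have a6 : 0 < S := by rw [← hBp]; positivity
      have a7 := a4.trans a5
      rw [nsmul_eq_mul, ← mul_div_assoc, div_le_iff₀ (by positivity), mul_comm] at a7
      have a8 := le_of_mul_le_mul_left a7 a6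
      exact_mod_cast a8
    · intro i hi
      obtain ⟨b1, b2⟩ := Finset.mem_filter.1 hi
      rw [← b2]
      exact (hlev i b1).2
    · have e : (8 / 9 : ℝ) ^ l = 128 ^ l * (1 / 144) ^ l := by rw [← mul_pow]; norm_num
      rw [e, pow_succ]; ring
  have h3 : ∑ l ∈ L, (8 / 9 : ℝ) ^ l ≤ 9 := by
    have := (summable_geometric_of_lt_one (r := (8 / 9 : ℝ)) (by norm_num) (by norm_num)).sum_le_tsum
      L (fun n _ => by positivity)
    rw [tsum_geometric_of_lt_one (by norm_num) (by norm_num)] at this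
    norm_num at this
    exact this
  rw [div_le_iff₀ (by positivity)]
  refine (Finset.sum_le_sum (fun ε _ => h1 ε)).trans ?_
  rw [Finset.sum_comm]
  refine (Finset.sum_le_sum h2).trans ?_
  rw [← Finset.mul_sum]
  refine (mul_le_mul_of_nonneg_left h3 (by positivity)).trans (le_of_eq ?_)
  ring

theorem two_le_type {α : Ordinal.{0}} (hα : α < Ordinal.omega 1) :
    2 ≤ classVal (Ordinal.omega0 ^ α) NontrivialType := by
  classical
  obtain ⟨X, i1, i2, i3, i4, j, N, hj, hN, h1, h2, h3⟩ := exists_james Dec dec_l1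
    (fun v w ρ τ a b => a.add b) (fun c v ρ a => a.smul c) (fun v ρ τ a b => a.mono b)
  have hup : ∀ v ρ, Dec v ρ → N v ≤ 4 * ρ := fun v ρ h =>
    h1 v _ h.cum_le (h.mono (by linarith [h.1]))
  have hc : NontrivialType X := by
    refine type_of_dense j hj N hN (p := Real.logb 144 256) (T := 1152 * 400) ?_
      (strong_type N (by norm_num) ?_)
    · rw [Real.lt_logb_iff_rpow_lt (by norm_num) (by norm_num)]; norm_num
    · intro n s x ρ l hρ hs hx
      obtain ⟨R, r1, r2⟩ := weak s (fun i => if i ∈ s then x i else 0) (ρ := 10 * (2 * ρ))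
        (by positivity) l hs (fun i => h2 _ _ (by
          split_ifs with hi
          · linarith [hx i hi]
          · rw [map_zero]; linarith))
      have r3 : ∀ ε : Fin n → Bool, N (∑ i ∈ s, sg (ε i) • x i) ≤ 4 * R ε := by
        intro ε
        have := hup _ _ (r1 ε)
        rwa [Finset.sum_congr rfl (fun i hi => by rw [if_pos hi])] at this
      refine (Finset.sum_le_sum (fun ε _ => r3 ε)).trans ?_
      rw [← Finset.mul_sum]
      rw [Fintype.card_fin] at r2
      linarith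
  refine (h3 α hα).trans ?_
  unfold classVal
  exact le_iSup_of_le X (le_iSup_of_le i1 (le_iSup_of_le i2 (le_iSup_of_le i3 (le_iSup_of_le i4
    (le_iSup_of_le hc le_rfl)))))

end Pool.Agent.H712Z.CK
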