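import Pool.Agent.H712Z.CK.James

set_option autoImplicit false

namespace Pool.Agent.H712Z.CK

open Ordinal Order Metric
open scoped ENNReal NNReal

variable {X : Type} [NormedAddCommGroup X] [NormedSpace ℝ X]

lemma clamp_lip (u v t : ℝ) :
    |max (-t) (min u t) - max (-t) (min v t)| ≤ |u - v| := by
  refine (abs_max_sub_max_le_max _ _ _ _).trans (max_le (by simp) ?_)
  refine (abs_min_sub_min_le_max _ _ _ _).trans (max_le le_rfl (by simp))

/-- one location at one scale, one shift -/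
lemma sr_piece {γ : Ordinal.{0}} {F : X → Ordinal.{0} → ℝ} (hF : Sys (ball (0 : X) 1) γ F)
    (o : X) {ρ : ℝ} (hρ : 0 < ρ) (cut : X → ℝ) (hcut : ∀ z w, |cut z - cut w| ≤ dist z w)
    (hc0 : ∀ z, 0 ≤ cut z) (hc1 : ∀ z, 0 < cut z → dist z o < ρ) (s : ℝ) :
    Sys Set.univ γ (fun z ξ => max (-cut z) (min (ρ * F (ρ⁻¹ • (z - o)) ξ - s) (cut z))) := by
  refine ⟨fun z _ => ?_, fun z ξ hξ => ?_, fun ξ z w => ?_⟩
  · rcases (hc0 z).eq_or_lt with h | h
    · have : (fun ξ => max (-cut z) (min (ρ * F (ρ⁻¹ • (z - o)) ξ - s) (cut z))) =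
          fun _ => (0 : ℝ) := by
        funext ξ
        rw [← h, neg_zero]
        exact max_eq_left (min_le_right _ _)
      rw [this]
      exact lc_const 0
    · have hz : ρ⁻¹ • (z - o) ∈ ball (0 : X) 1 := by
        rw [mem_ball_zero_iff, norm_smul, norm_inv, Real.norm_of_nonneg hρ.le, ← div_eq_inv_mul,
          div_lt_one hρ, ← dist_eq_norm]
        exact hc1 z h
      refine (hF.lc _ hz).comp ρ hρ (fun ξ ξ' => (clamp_lip _ _ _).trans (le_of_eq ?_))
      rw [sub_sub_sub_cancel_right, ← _root_.mul_sub, abs_mul, abs_of_pos hρ]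
  · simp only [hF.const _ ξ hξ]
  · have h1 : ∀ z w : X, |ρ * F (ρ⁻¹ • (z - o)) ξ - ρ * F (ρ⁻¹ • (w - o)) ξ| ≤ dist z w := by
      intro z w
      have h2 := hF.lip ξ (ρ⁻¹ • (z - o)) (ρ⁻¹ • (w - o))
      rw [dist_eq_norm, ← smul_sub, sub_sub_sub_cancel_right, norm_smul, norm_inv,
        Real.norm_of_nonneg hρ.le, ← dist_eq_norm] at h2
      rw [← _root_.mul_sub, abs_mul, abs_of_pos hρ]
      have h3 := mul_le_mul_of_nonneg_left h2 hρ.le
      rwa [← mul_assoc, mul_inv_cancel₀ hρ.ne', one_mul] at h3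
    have h2 : ∀ z w : X, |-cut z - -cut w| ≤ dist z w := by
      intro z w
      have := lip_const_sub hcut 0 z w
      simpa using this
    exact lip_max h2 (lip_min (lip_sub_const h1 s) hcut) z w

lemma sr_aux [TopologicalSpace.SeparableSpace X] (hX : Superreflexive X) {η : ℝ} (hη : 0 < η)
    (hη1 : η ≤ 1) : ∃ (k : ℕ) (H : X → Ordinal.{0} → ℝ), Sys Set.univ (ht k) H ∧
      ∀ x y, ∃ ξ, (1 - 37 * η) * dist x y ≤ |H x ξ - H y ξ| := by
  obtain ⟨k, F, hF, hφ⟩ := unit_sys hX hη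
  obtain ⟨c, hc⟩ := TopologicalSpace.exists_dense_seq X
  have hρ1 : 1 < 1 + η := by linarith
  have hρ0 : 0 < 1 + η := by linarith
  have hA : ∀ j : ℤ, 0 < (1 + η) ^ j := fun j => zpow_pos hρ0 j
  obtain ⟨N, hN⟩ := exists_nat_ge (62 / η + 1)
  let cut : ℤ × ℕ → X → ℝ := fun i z =>
    min (max 0 (4 * (1 + η) ^ i.1 - dd (piece c (5 * (1 + η) ^ i.1) i.2) (4 * (1 + η) ^ i.1) z))
      (max 0 (dist z 0 - η * (1 + η) ^ i.1))
  have hcut : ∀ i z w, |cut i z - cut i w| ≤ dist z w := fun i =>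
    lip_min (lip_max (lip_const 0) (lip_const_sub (dd_lip _ _) _))
      (lip_max (lip_const 0) (lip_sub_const (fun z w => abs_dist_sub_le z w 0) _))
  have hc0 : ∀ i z, 0 ≤ cut i z := fun i z => le_min (le_max_left _ _) (le_max_left _ _)
  have hc4 : ∀ i z, cut i z ≤ 4 * (1 + η) ^ i.1 := by
    intro i z
    refine (min_le_left _ _).trans (max_le (by have := hA i.1; positivity) ?_)
    have := dd_nonneg (piece c (5 * (1 + η) ^ i.1) i.2)
      (show 0 ≤ 4 * (1 + η) ^ i.1 by have := hA i.1; positivity) z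
    linarith
  have hfar : ∀ i z, (∀ w ∈ piece c (5 * (1 + η) ^ i.1) i.2, 4 * (1 + η) ^ i.1 ≤ dist z w) →
      cut i z = 0 := by
    intro i z h
    refine le_antisymm ((min_le_left _ _).trans (max_le le_rfl ?_)) (hc0 i z)
    have := le_dd (t := 4 * (1 + η) ^ i.1) le_rfl h
    linarith
  have hc1 : ∀ i z, 0 < cut i z → dist z (c i.2) < 9 * (1 + η) ^ i.1 := by
    intro i z h
    by_contra hcon
    rw [hfar i z] at h
    · exact lt_irrefl _ h
    · intro w hw
      have h1 := hw.1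
      have h2 := dist_triangle z w (c i.2)
      linarith [not_lt.1 hcon]
  let G : (ℤ × ℕ) × Set.Icc (-(N : ℤ)) N → X → Ordinal.{0} → ℝ := fun i z ξ =>
    max (-cut i.1 z) (min (9 * (1 + η) ^ i.1.1 * F ((9 * (1 + η) ^ i.1.1)⁻¹ • (z - c i.1.2)) ξ -
      i.2.1 * (η * (1 + η) ^ i.1.1)) (cut i.1 z))
  have hG : ∀ i, Sys Set.univ (ht k) (G i) := fun i =>
    sr_piece hF (c i.1.2) (by have := hA i.1.1; positivity) (cut i.1) (hcut i.1) (hc0 i.1)
      (hc1 i.1) _
  have hGc : ∀ i z ξ, |G i z ξ| ≤ cut i.1 z := by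
    intro i z ξ
    rw [abs_le]
    exact ⟨le_max_left _ _, max_le (by linarith [hc0 i.1 z]) (min_le_right _ _)⟩
  obtain ⟨H, h1, h2, -, -⟩ := glue (S := Set.univ) (γ := ht k) G (fun _ => 0) hG (lip_const 0) (by
    intro z _ ε hε
    have hf := finite_scales hρ1 (s := ε / 4) (t := dist z 0 / η) (by positivity)
      (fun i => ε < cut i z) (by
        intro j n h
        refine ⟨by have := hc4 (j, n) z; simp only at this; linarith, ?_⟩
        have h3 := lt_of_lt_of_le h (min_le_right _ _)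
        rcases lt_max_iff.1 h3 with h4 | h4
        · linarith
        · rw [lt_div_iff₀ hη]
          simp only at h4
          linarith) (by
        intro j
        obtain ⟨m0, h⟩ := far_piece hc (R := 5 * (1 + η) ^ j) (s := 4 * (1 + η) ^ j)
          (by have := hA j; linarith) z
        refine ⟨m0, fun n hn => ?_⟩
        by_contra hcon
        rw [hfar (j, n) z (h n (not_le.1 hcon))] at hn
        linarith)
    refine (hf.prod (Set.finite_univ (α := Set.Icc (-(N : ℤ)) N))).subset ?_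
    rintro i ⟨ξ, hξ⟩
    rw [_root_.sub_zero] at hξ
    exact ⟨hξ.trans_le (hGc i z ξ), Set.mem_univ _⟩)
  refine ⟨k + 1, H, h1, fun x y => ?_⟩
  rcases (dist_nonneg (x := x) (y := y)).eq_or_lt with hd | hd
  · exact ⟨0, by rw [← hd]; simp⟩
  obtain ⟨j, hj1, hj2⟩ := exists_mem_Ico_zpow hd hρ1
  rw [zpow_add_one₀ hρ0.ne'] at hj2
  have ha0 := hA j
  obtain ⟨n, hn⟩ := exists_piece hc (show 0 < 5 * (1 + η) ^ j by positivity) x
  obtain ⟨φ, hφ1, hφ2⟩ := exists_dual_vector'' ℝ (x - y)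
  obtain ⟨ξ, hξ⟩ := hφ φ hφ1
  have hcx : cut (j, n) x = min (4 * (1 + η) ^ j) (max 0 (dist x 0 - η * (1 + η) ^ j)) := by
    simp only [cut]
    rw [dd_of_mem _ hn, _root_.sub_zero, max_eq_right (by positivity)]
  have hcy : min (2 * (1 + η) ^ j) (max 0 (dist y 0 - η * (1 + η) ^ j)) ≤ cut (j, n) y := by
    refine min_le_min (le_max_of_le_right ?_) le_rfl
    have h3 := dd_lip (piece c (5 * (1 + η) ^ j) n) (4 * (1 + η) ^ j) y x
    rw [dd_of_mem _ hn, _root_.sub_zero, dist_comm] at h3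
    have h4 := le_abs_self (dd (piece c (5 * (1 + η) ^ j) n) (4 * (1 + η) ^ j) y)
    simp only
    nlinarith
  have hcx0 := hc0 (j, n) x
  have hcy0 := hc0 (j, n) y
  have hcy4 := hc4 (j, n) y
  have hn1 := hn.1
  set a := (1 + η) ^ j with ha
  have hηa : 0 < η * a := by positivity
  have hηa1 : η * a ≤ a := by nlinarith
  have hsum : dist x y - 2 * (η * a) ≤ cut (j, n) x + cut (j, n) y := by
    have h3 := dist_triangle_right x y 0
    have h4 := le_max_right 0 (dist x 0 - η * a)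
    have h5 := le_max_right 0 (dist y 0 - η * a)
    rcases min_cases (4 * a) (max 0 (dist x 0 - η * a)) with h6 | h6
    · rw [hcx, h6.1]; nlinarith
    · rcases min_cases (2 * a) (max 0 (dist y 0 - η * a)) with h7 | h7
      · rw [h7.1] at hcy; nlinarith
      · rw [h7.1] at hcy; rw [hcx, h6.1]; linarith
  have happ : ∀ z, dist z (c n) < 9 * a →
      |9 * a * F ((9 * a)⁻¹ • (z - c n)) ξ - φ (z - c n)| ≤ 18 * (η * a) := by
    intro z hz
    have h9 : 0 < 9 * a := by positivity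
    have h3 := hξ ((9 * a)⁻¹ • (z - c n)) (by
      rw [mem_ball_zero_iff, norm_smul, norm_inv, Real.norm_of_nonneg h9.le, ← div_eq_inv_mul,
        div_lt_one h9, ← dist_eq_norm]
      exact hz)
    rw [map_smul, _root_.smul_eq_mul] at h3
    have h4 : 9 * a * F ((9 * a)⁻¹ • (z - c n)) ξ - φ (z - c n) =
        9 * a * (F ((9 * a)⁻¹ • (z - c n)) ξ - (9 * a)⁻¹ * φ (z - c n)) := by
      field_simp
    rw [h4, abs_mul, abs_of_pos h9]
    nlinarith
  have hy7 : dist y (c n) < 7 * a := by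
    have := dist_triangle y x (c n)
    rw [dist_comm y x] at this
    nlinarith
  have hx := abs_le.1 (happ x (by linarith))
  have hy := abs_le.1 (happ y (by linarith))
  have hφy : |φ (y - c n)| ≤ 7 * a := by
    have h3 := φ.le_opNorm (y - c n)
    have h4 := mul_le_mul_of_nonneg_right hφ1 (norm_nonneg (y - c n))
    rw [← dist_eq_norm] at h3 h4
    rw [Real.norm_eq_abs] at h3
    linarith
  have hφy' := abs_le.1 hφy
  have hdiff : φ (x - c n) - φ (y - c n) = dist x y := by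
    rw [← map_sub, sub_sub_sub_cancel_right, hφ2, dist_eq_norm]
    rfl
  set Hx := 9 * a * F ((9 * a)⁻¹ • (x - c n)) ξ with hHx
  set Hy := 9 * a * F ((9 * a)⁻¹ • (y - c n)) ξ with hHy
  set t := min (cut (j, n) y) (Hx - Hy) with ht'
  have ht1 : t ≤ cut (j, n) y := min_le_left _ _
  have ht2 : t ≤ Hx - Hy := min_le_right _ _
  have ht3 : -36 * a ≤ t := le_min (by linarith) (by linarith [hx.1, hy.2])
  set i : ℤ := ⌊(Hy + t) / (η * a)⌋ with hi
  have hi1 : (i : ℝ) * (η * a) ≤ Hy + t := by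
    have := Int.floor_le ((Hy + t) / (η * a))
    rwa [le_div_iff₀ hηa] at this
  have hi2 : Hy + t < (i + 1) * (η * a) := by
    have := Int.lt_floor_add_one ((Hy + t) / (η * a))
    rwa [div_lt_iff₀ hηa] at this
  have hN' : 62 * a + η * a ≤ N * (η * a) := by
    have h3 := mul_le_mul_of_nonneg_right hN hηa.le
    have h4 : (62 / η + 1) * (η * a) = 62 * a + η * a := by field_simp
    linarith
  have hiN : i ∈ Set.Icc (-(N : ℤ)) N := by
    constructor
    · have h3 : (-(N : ℝ)) * (η * a) < (i + 1) * (η * a) := by linarith [hy.1, hφy'.1]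
      have h4 := lt_of_mul_lt_mul_right h3 hηa.le
      have h5 : (-(N : ℤ)) < i + 1 := by exact_mod_cast h4
      omega
    · have h3 : (i : ℝ) * (η * a) ≤ N * (η * a) := by linarith [hy.2, hφy'.2]
      have h4 := le_of_mul_le_mul_right h3 hηa
      exact_mod_cast h4
  obtain ⟨ξ', hξ'⟩ := h2 ((j, n), ⟨i, hiN⟩) ξ
  refine ⟨ξ', ?_⟩
  rw [hξ', hξ']
  refine le_trans ?_ (le_abs_self _)
  have g1 : min (Hx - i * (η * a)) (cut (j, n) x) ≤ G ((j, n), ⟨i, hiN⟩) x ξ := le_max_right _ _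
  have g2 : G ((j, n), ⟨i, hiN⟩) y ξ ≤ η * a - t :=
    max_le (by simp only; linarith) ((min_le_left _ _).trans (by
      show Hy - i * (η * a) ≤ _
      linarith))
  have g3 : (1 - 37 * η) * dist x y ≤ dist x y - 37 * (η * a) := by nlinarith
  have g4 : dist x y - 36 * (η * a) - t ≤ min (Hx - i * (η * a)) (cut (j, n) x) := by
    refine le_min (by linarith [hx.1, hy.2]) ?_
    rcases min_cases (cut (j, n) y) (Hx - Hy) with h6 | h6
    · rw [ht', h6.1]; linarith
    · rw [ht', h6.1]; linarith [hx.1, hy.2]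
  linarith

theorem cEmb_le_one [TopologicalSpace.SeparableSpace X] (hX : Superreflexive X) {α : Ordinal.{0}}
    (hα : ω ≤ α) : cEmb (CO (ω ^ α)) X ≤ 1 := by
  have := le_of_forall_nnreal (A := cEmb (CO (ω ^ α)) X) (b := 1) (fun η => 1 + η)
    (by fun_prop) (by simp) 1 one_pos (fun η h _ => by
      have h0 : (0 : ℝ) < η := h
      obtain ⟨k, H, h1, h2⟩ := sr_aux hX (η := η / (37 * (1 + η))) (by positivity) (by
        rw [div_le_one (by positivity)]; linarith)
      refine cEmb_le h1 ((ht_le k).trans (opow_le_opow_right omega0_pos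
        ((natCast_lt_omega0 k).le.trans hα))) _ (fun x y => ?_)
      obtain ⟨ξ, hξ⟩ := h2 x y
      refine ⟨ξ, ?_⟩
      push_cast
      have h3 : (1 - 37 * (η / (37 * (1 + η))) : ℝ) = 1 / (1 + η) := by field_simp; ring
      rw [h3, div_mul_eq_mul_div, one_mul, div_le_iff₀ (by positivity)] at hξ
      linarith)
  simpa using this

end Pool.Agent.H712Z.CK
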