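import Pool.Agent.H712Z.CK.LowSR
import Pool.Agent.H712Z.CK.Typ
import Pool.Agent.H712Z.CK.UpSR

set_option autoImplicit false

namespace Pool.Agent.H712Z.CK

open scoped ENNReal NNReal

lemma classVal_le_two {α : Ordinal.{0}} (h : 2 ≤ α)
    (P : ∀ (X : Type) [NormedAddCommGroup X] [NormedSpace ℝ X], Prop) :
    classVal (Ordinal.omega0 ^ α) P ≤ 2 := by
  unfold classVal
  simp only [iSup_le_iff]
  intro X _ _ _ _ _
  exact cEmb_le_two (Ordinal.opow_le_opow_right Ordinal.omega0_pos h)

lemma one_le_sr (γ : Ordinal.{0}) : 1 ≤ classVal γ Superreflexive := by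
  have h1 : Superreflexive ℝ :=
    ⟨ℝ, inferInstance, inferInstance, inferInstance, ⟨ContinuousLinearEquiv.refl ℝ ℝ⟩⟩
  have h2 : 1 ≤ cEmb (CO γ) ℝ := by
    unfold cEmb
    simp only [le_iInf_iff]
    intro f a b ha hb
    have a1 := ha.dist_le_mul 0 1
    have a2 := hb.le_mul_dist 0 1
    have a3 := mul_le_mul_of_nonneg_left a1 b.2
    have a4 : dist (0 : ℝ) 1 = 1 := by simp
    rw [a4] at a2 a3
    have a5 : (1 : ℝ) ≤ a * b := by
      have := a2.trans a3
      rw [mul_one, mul_comm] at this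
      exact this
    rw [← ENNReal.coe_mul]
    exact_mod_cast a5
  refine h2.trans ?_
  unfold classVal
  exact le_iSup_of_le ℝ (le_iSup_of_le inferInstance (le_iSup_of_le inferInstance
    (le_iSup_of_le inferInstance (le_iSup_of_le inferInstance (le_iSup_of_le h1 le_rfl)))))

theorem exact_values (α : Ordinal.{0}) (hα : α < Ordinal.omega 1) (h2 : 2 ≤ α) :
    classVal (Ordinal.omega0 ^ α) NontrivialType = 2 ∧
    classVal (Ordinal.omega0 ^ α) NontrivialCotype = 2 ∧
    (α < Ordinal.omega0 → classVal (Ordinal.omega0 ^ α) Superreflexive = 2) ∧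
    (Ordinal.omega0 ≤ α → classVal (Ordinal.omega0 ^ α) Superreflexive = 1) := by
  refine ⟨le_antisymm (classVal_le_two h2 _) (two_le_type hα),
    le_antisymm (classVal_le_two h2 _) (two_le_cotype hα), fun h => ?_, fun h => ?_⟩
  · obtain ⟨k, rfl⟩ := Ordinal.lt_omega0.1 h
    exact le_antisymm (classVal_le_two h2 _) (two_le_sr k)
  · refine le_antisymm ?_ (one_le_sr _)
    unfold classVal
    simp only [iSup_le_iff]
    intro X _ _ _ _ hX
    exact cEmb_le_one hX h

end Pool.Agent.H712Z.CK
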