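import Pool.Agent.H712Z.CK.Defs

set_option autoImplicit false

namespace Pool.Agent.H712Z.CK

open Ordinal Order
open scoped ENNReal NNReal

/-- left continuity at limit ordinals -/
def LC (F : Ordinal.{0} → ℝ) : Prop :=
  ∀ l, IsSuccLimit l → ∀ ε : ℝ, 0 < ε → ∃ β < l, ∀ ξ, β < ξ → ξ < l → |F ξ - F l| ≤ ε

lemma LC.continuous {F : Ordinal.{0} → ℝ} (h : LC F) : Continuous F := by
  rw [continuous_def]
  intro U hU
  rw [SuccOrder.isOpen_iff]
  intro o ho hl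
  obtain ⟨ε, hε, hb⟩ := Metric.isOpen_iff.1 hU (F o) ho
  obtain ⟨β, hβ, H⟩ := h o hl (ε / 2) (by linarith)
  refine ⟨β, hβ, fun ξ hξ => hb ?_⟩
  rw [Metric.mem_ball, Real.dist_eq]
  have := H ξ hξ.1 hξ.2
  linarith

lemma lc_const (c : ℝ) : LC (fun _ => c) := by
  intro l hl ε hε
  exact ⟨0, hl.bot_lt, fun _ _ _ => by simp [hε.le]⟩

lemma LC.comp {F G : Ordinal.{0} → ℝ} (h : LC F) (C : ℝ) (hC : 0 < C)
    (hG : ∀ ξ ξ', |G ξ - G ξ'| ≤ C * |F ξ - F ξ'|) : LC G := by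
  intro l hl ε hε
  obtain ⟨β, hβ, H⟩ := h l hl (ε / C) (by positivity)
  refine ⟨β, hβ, fun ξ h1 h2 => (hG ξ l).trans ?_⟩
  have := mul_le_mul_of_nonneg_left (H ξ h1 h2) hC.le
  rwa [mul_div_cancel₀ _ hC.ne'] at this

variable {M : Type} [PseudoMetricSpace M]

/-- A family of 1-Lipschitz functions indexed by the ordinals, constant from `γ` on, and
continuous in the index at the points of `S`. -/
structure Sys (S : Set M) (γ : Ordinal.{0}) (F : M → Ordinal.{0} → ℝ) : Prop where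
  lc : ∀ z ∈ S, LC (F z)
  const : ∀ z ξ, γ ≤ ξ → F z ξ = F z γ
  lip : ∀ ξ z w, |F z ξ - F w ξ| ≤ dist z w

lemma Sys.mono {S : Set M} {γ γ' : Ordinal.{0}} {F : M → Ordinal.{0} → ℝ} (h : Sys S γ F)
    (hγ : γ ≤ γ') : Sys S γ' F :=
  ⟨h.lc, fun z ξ hξ => by rw [h.const z ξ (hγ.trans hξ), h.const z γ' hγ], h.lip⟩

lemma sys_const (S : Set M) (γ : Ordinal.{0}) (b : M → ℝ) (hb : ∀ z w, |b z - b w| ≤ dist z w) :
    Sys S γ (fun z _ => b z) :=
  ⟨fun z _ => lc_const (b z), fun _ _ _ => rfl, fun _ z w => hb z w⟩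

/-- the natural number attached to a finite ordinal -/
noncomputable def toN (o : Ordinal.{0}) : ℕ := Cardinal.toNat o.card

lemma toN_nat (n : ℕ) : toN (n : Ordinal.{0}) = n := by simp [toN]

lemma glue_nat {S : Set M} {γ : Ordinal.{0}} (F : ℕ → M → Ordinal.{0} → ℝ) (b : M → ℝ)
    (hF : ∀ n, Sys S γ (F n)) (hb : ∀ z w, |b z - b w| ≤ dist z w)
    (hc : ∀ z ∈ S, ∀ ε : ℝ, 0 < ε → ∃ N, ∀ n, N ≤ n → ∀ ξ, |F n z ξ - b z| ≤ ε) :
    ∃ G : M → Ordinal.{0} → ℝ, Sys S ((γ + 1) * ω) G ∧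
      (∀ n ξ, ∃ ξ', ∀ z, G z ξ' = F n z ξ) ∧ (∃ ξ', ∀ z, G z ξ' = b z) ∧
      ∀ ξ', (∃ n ξ, ∀ z, G z ξ' = F n z ξ) ∨ ∀ z, G z ξ' = b z := by
  classical
  set δ : Ordinal.{0} := γ + 1 with hδ
  have hδ0 : δ ≠ 0 := by rw [hδ]; exact (add_pos_of_right zero_lt_one γ).ne'
  let G : M → Ordinal.{0} → ℝ := fun z ξ =>
    if ξ < δ * ω then F (toN (ξ / δ)) z (ξ % δ) else b z
  have hval : ∀ (n : ℕ) (η : Ordinal.{0}), η < δ → ∀ z, G z (δ * n + η) = F n z η := by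
    intro n η hη z
    have h1 : δ * n + η < δ * ω := lt_mul_iff.2 ⟨n, natCast_lt_omega0 n, η, hη, rfl⟩
    simp only [G, if_pos h1]
    rw [mul_add_div _ hδ0, div_eq_zero_of_lt hη, add_zero, toN_nat, mul_add_mod_self,
      mod_eq_of_lt hη]
  have hrep : ∀ ξ, ξ < δ * ω → ∃ (n : ℕ) (η : Ordinal.{0}), η < δ ∧ ξ = δ * n + η := by
    intro ξ hξ
    obtain ⟨q, hq, r, hr, e⟩ := lt_mul_iff.1 hξ
    obtain ⟨n, rfl⟩ := lt_omega0.1 hq
    exact ⟨n, r, hr, e⟩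
  have hbig : ∀ z ξ, δ * ω ≤ ξ → G z ξ = b z := by
    intro z ξ h
    simp only [G, if_neg (not_lt.2 h)]
  refine ⟨G, ⟨?_, ?_, ?_⟩, ?_, ⟨δ * ω, fun z => hbig z _ le_rfl⟩, ?_⟩
  · intro z hz l hl ε hε
    rcases lt_trichotomy l (δ * ω) with h | h | h
    · obtain ⟨n, η, hη, rfl⟩ := hrep l h
      have hη' : IsSuccLimit η := by
        rcases isSuccLimit_add_iff.1 hl with h1 | ⟨-, h1⟩
        · exact h1
        · exfalso
          cases n with
          | zero => simp at h1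
          | succ n =>
            rw [Nat.cast_succ, mul_add_one, hδ, ← add_assoc] at h1
            exact not_isSuccLimit_succ _ h1
      obtain ⟨β, hβ, H⟩ := (hF n).lc z hz η hη' ε hε
      refine ⟨δ * n + β, by gcongr, fun ξ h1 h2 => ?_⟩
      have h3 : δ * n ≤ ξ := le_trans le_self_add h1.le
      obtain ⟨η', rfl⟩ := exists_add_of_le h3
      have h4 : β < η' := lt_of_add_lt_add_left h1
      have h5 : η' < η := lt_of_add_lt_add_left h2
      rw [hval n η' (h5.trans hη), hval n η hη]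
      exact H η' h4 h5
    · subst h
      obtain ⟨N, hN⟩ := hc z hz ε hε
      refine ⟨δ * N, (mul_lt_mul_iff_right₀ (pos_iff_ne_zero.2 hδ0)).2 (natCast_lt_omega0 N),
        fun ξ h1 h2 => ?_⟩
      obtain ⟨n, η, hη, rfl⟩ := hrep ξ h2
      rw [hval n η hη, hbig z _ le_rfl]
      apply hN
      by_contra hn
      push Not at hn
      have h3 : δ * n + η < δ * (n + 1 : ℕ) := by
        rw [Nat.cast_succ, mul_add_one]; gcongr
      have h4 : δ * ((n + 1 : ℕ) : Ordinal.{0}) ≤ δ * N := by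
        gcongr; exact_mod_cast hn
      exact absurd (h1.trans (h3.trans_le h4)) (lt_irrefl _)
    · refine ⟨δ * ω, h, fun ξ h1 _ => ?_⟩
      rw [hbig z ξ h1.le, hbig z l h.le]
      simp [hε.le]
  · intro z ξ h
    rw [hbig z ξ h, hbig z _ le_rfl]
  · intro ξ z w
    simp only [G]
    split_ifs
    · exact (hF _).lip _ z w
    · exact hb z w
  · intro n ξ
    rcases le_or_gt ξ γ with h | h
    · exact ⟨δ * n + ξ, hval n ξ (lt_of_le_of_lt h (lt_add_one γ))⟩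
    · refine ⟨δ * n + γ, fun z => ?_⟩
      rw [hval n γ (lt_add_one γ), (hF n).const z ξ h.le]
  · intro ξ'
    rcases lt_or_ge ξ' (δ * ω) with h | h
    · obtain ⟨n, η, hη, rfl⟩ := hrep ξ' h
      exact Or.inl ⟨n, η, hval n η hη⟩
    · exact Or.inr (fun z => hbig z ξ' h)

lemma glue {ι : Type} [Countable ι] {S : Set M} {γ : Ordinal.{0}}
    (F : ι → M → Ordinal.{0} → ℝ) (b : M → ℝ)
    (hF : ∀ i, Sys S γ (F i)) (hb : ∀ z w, |b z - b w| ≤ dist z w)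
    (hc : ∀ z ∈ S, ∀ ε : ℝ, 0 < ε → {i | ∃ ξ, ε < |F i z ξ - b z|}.Finite) :
    ∃ G : M → Ordinal.{0} → ℝ, Sys S ((γ + 1) * ω) G ∧
      (∀ i ξ, ∃ ξ', ∀ z, G z ξ' = F i z ξ) ∧ (∃ ξ', ∀ z, G z ξ' = b z) ∧
      ∀ ξ', (∃ i ξ, ∀ z, G z ξ' = F i z ξ) ∨ ∀ z, G z ξ' = b z := by
  classical
  obtain ⟨e, he⟩ := exists_injective_nat ι
  let F' : ℕ → M → Ordinal.{0} → ℝ := fun n =>
    if h : ∃ i, e i = n then F h.choose else fun z _ => b z
  have h1 : ∀ i, F' (e i) = F i := by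
    intro i
    have h : ∃ j, e j = e i := ⟨i, rfl⟩
    simp only [F', dif_pos h]
    rw [he h.choose_spec]
  have h2 : ∀ n, (∃ i, e i = n ∧ F' n = F i) ∨ F' n = fun z _ => b z := by
    intro n
    by_cases h : ∃ i, e i = n
    · obtain ⟨i, rfl⟩ := h
      exact Or.inl ⟨i, rfl, h1 i⟩
    · right; simp only [F', dif_neg h]
  obtain ⟨G, g1, g2, g3, g4⟩ := glue_nat (S := S) (γ := γ) F' b (by
      intro n
      rcases h2 n with ⟨i, -, h⟩ | h
      · rw [h]; exact hF i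
      · rw [h]; exact sys_const S γ b hb) hb (by
      intro z hz ε hε
      obtain ⟨N, hN⟩ := ((hc z hz ε hε).image e).bddAbove
      refine ⟨N + 1, fun n hn ξ => ?_⟩
      rcases h2 n with ⟨i, rfl, h⟩ | h
      · rw [h]
        by_contra hcon
        have := hN ⟨i, ⟨ξ, not_le.1 hcon⟩, rfl⟩
        omega
      · rw [h]; simp [hε.le])
  refine ⟨G, g1, fun i ξ => ?_, g3, fun ξ' => ?_⟩
  · have := g2 (e i) ξ
    rwa [h1] at this
  · rcases g4 ξ' with ⟨n, ξ, h⟩ | h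
    · rcases h2 n with ⟨i, -, h'⟩ | h'
      · rw [h'] at h; exact Or.inl ⟨i, ξ, h⟩
      · rw [h'] at h; exact Or.inr h
    · exact Or.inr h

/-- the heights obtained by repeated gluing -/
noncomputable def ht : ℕ → Ordinal.{0}
  | 0 => 0
  | k + 1 => (ht k + 1) * ω

lemma ht_le (k : ℕ) : ht k ≤ ω ^ (k : Ordinal.{0}) := by
  induction k with
  | zero => simp [ht]
  | succ k ih =>
    have h1 : (1 : Ordinal.{0}) ≤ ω ^ (k : Ordinal.{0}) :=
      one_le_iff_ne_zero.2 (opow_pos _ omega0_pos).ne'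
    have h2 : ht k + 1 ≤ ω ^ (k : Ordinal.{0}) * (2 : ℕ) := by
      calc ht k + 1 ≤ ω ^ (k : Ordinal.{0}) + ω ^ (k : Ordinal.{0}) := add_le_add ih h1
        _ = _ := by
          rw [show ((2 : ℕ) : Ordinal.{0}) = 1 + 1 by norm_num, mul_add_one, mul_one]
    calc ht (k + 1) = (ht k + 1) * ω := rfl
      _ ≤ ω ^ (k : Ordinal.{0}) * (2 : ℕ) * ω := by gcongr
      _ = ω ^ (k : Ordinal.{0}) * ω := by rw [mul_assoc, natCast_mul_omega0 (by norm_num)]
      _ = _ := by rw [Nat.cast_succ, opow_add, opow_one]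

lemma ht_le_succ (k : ℕ) : ht k ≤ ht (k + 1) := by
  calc ht k ≤ ht k + 1 := le_self_add
    _ = (ht k + 1) * 1 := (mul_one _).symm
    _ ≤ (ht k + 1) * ω := by gcongr; exact one_lt_omega0.le

lemma cEmb_le {M : Type} [MetricSpace M] {γ γ' : Ordinal.{0}} {F : M → Ordinal.{0} → ℝ}
    (h : Sys Set.univ γ F) (hγ : γ ≤ γ') (b : ℝ≥0)
    (hs : ∀ x y, ∃ ξ, dist x y ≤ b * |F x ξ - F y ξ|) : cEmb (CO γ') M ≤ b := by
  let f : M → CO γ' := fun z => ⟨fun ξ => F z ξ.1,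
    (h.lc z (Set.mem_univ z)).continuous.comp continuous_subtype_val⟩
  have h1 : LipschitzWith 1 f := by
    apply LipschitzWith.of_dist_le_mul
    intro x y
    rw [NNReal.coe_one, one_mul, ContinuousMap.dist_le dist_nonneg]
    intro ξ
    exact h.lip ξ.1 x y
  have h2 : AntilipschitzWith b f := by
    apply AntilipschitzWith.of_le_mul_dist
    intro x y
    obtain ⟨ξ, hξ⟩ := hs x y
    refine hξ.trans (mul_le_mul_of_nonneg_left ?_ b.2)
    rcases le_or_gt ξ γ with h3 | h3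
    · exact ContinuousMap.dist_apply_le_dist (f := f x) (g := f y) ⟨ξ, zero_le, h3.trans hγ⟩
    · rw [h.const x ξ h3.le, h.const y ξ h3.le]
      exact ContinuousMap.dist_apply_le_dist (f := f x) (g := f y) ⟨γ, zero_le, hγ⟩
  unfold cEmb
  refine iInf_le_of_le f (iInf_le_of_le 1 (iInf_le_of_le b (iInf_le_of_le h1
    (iInf_le_of_le h2 ?_))))
  simp

end Pool.Agent.H712Z.CK
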