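import Pool.Agent.H712Z.CK.Unc

set_option autoImplicit false

namespace Pool.Agent.H712Z.CK

open Pool.Agent.H712Z.Cot

variable {V : Type} [AddCommGroup V] [Module ℝ V]

lemma exists_seminorm (D : V → ℝ → Prop) (h0 : ∀ v ρ, D v ρ → 0 ≤ ρ) (hex : ∀ v, ∃ ρ, D v ρ)
    (hadd : ∀ v w ρ τ, D v ρ → D w τ → D (v + w) (ρ + τ))
    (hsmul : ∀ (c : ℝ) v ρ, D v ρ → D (c • v) (|c| * ρ))
    (hmono : ∀ v ρ τ, D v ρ → ρ ≤ τ → D v τ) :
    ∃ N : Seminorm ℝ V, (∀ v ρ, D v ρ → N v ≤ ρ) ∧ ∀ v ρ, N v < ρ → D v ρ := by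
  let n : V → ℝ := fun v => sInf {ρ | D v ρ}
  have hb : ∀ v, BddBelow {ρ | D v ρ} := fun v => ⟨0, fun ρ h => h0 v ρ h⟩
  have h1 : ∀ v ρ, D v ρ → n v ≤ ρ := fun v ρ h => csInf_le (hb v) h
  have h2 : ∀ v ρ, n v < ρ → D v ρ := by
    intro v ρ h
    obtain ⟨τ, h3, h4⟩ := exists_lt_of_csInf_lt (hex v) h
    exact hmono v τ ρ h3 h4.le
  have h3 : ∀ v, 0 ≤ n v := fun v => le_csInf (hex v) (fun ρ h => h0 v ρ h)
  refine ⟨Seminorm.ofSMulLE n ?_ ?_ ?_, h1, h2⟩
  · obtain ⟨ρ, h⟩ := hex 0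
    have := h1 _ _ (hsmul 0 0 ρ h)
    simp only [smul_zero, abs_zero, zero_mul] at this
    exact le_antisymm this (h3 0)
  · intro v w
    refine le_of_forall_pos_le_add (fun ε hε => ?_)
    have := h1 _ _ (hadd v w _ _ (h2 v (n v + ε / 2) (by linarith)) (h2 w (n w + ε / 2) (by linarith)))
    linarith
  · intro c v
    refine le_of_forall_pos_le_add (fun ε hε => ?_)
    have hc : 0 < |c| + 1 := by positivity
    have := h1 _ _ (hsmul c v _ (h2 v (n v + ε / (|c| + 1)) (by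
      have : 0 < ε / (|c| + 1) := by positivity
      linarith)))
    have h4 : |c| * (ε / (|c| + 1)) ≤ ε := by
      rw [← mul_div_assoc, div_le_iff₀ hc]; nlinarith [abs_nonneg c]
    rw [Real.norm_eq_abs]
    linarith

lemma exists_completion (N : Seminorm ℝ V) (S : Set V) (hS : S.Countable)
    (hspan : Submodule.span ℝ S = ⊤) :
    ∃ (X : Type) (_ : NormedAddCommGroup X) (_ : NormedSpace ℝ X), CompleteSpace X ∧
      TopologicalSpace.SeparableSpace X ∧ ∃ j : V →ₗ[ℝ] X, DenseRange j ∧ ∀ v, ‖j v‖ = N v := by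
  let _ : SeminormedAddCommGroup V := N.toAddGroupSeminorm.toSeminormedAddCommGroup
  let _ : NormedSpace ℝ V := ⟨fun c v => (map_smul_eq_mul N c v).le⟩
  have : TopologicalSpace.SeparableSpace V := by
    rw [← TopologicalSpace.isSeparable_univ_iff]
    have := (hS.isSeparable).span (R := ℝ)
    rwa [hspan] at this
  refine ⟨UniformSpace.Completion V, inferInstance, inferInstance, inferInstance, inferInstance,
    (UniformSpace.Completion.toComplₗᵢ (𝕜 := ℝ) (E := V)).toLinearMap,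
    UniformSpace.Completion.denseRange_coe, fun v => ?_⟩
  exact UniformSpace.Completion.norm_coe v

variable {X : Type} [NormedAddCommGroup X] [NormedSpace ℝ X]

lemma type_of_dense (j : V →ₗ[ℝ] X) (hj : DenseRange j) (N : V → ℝ) (hN : ∀ v, ‖j v‖ = N v)
    {p T : ℝ} (hp : 1 < p) (h : ∀ (n : ℕ) (x : Fin n → V),
      (∑ ε : Fin n → Bool, N (∑ i, sg (ε i) • x i)) / 2 ^ n ≤ T * (∑ i, N (x i) ^ p) ^ (1 / p)) :
    NontrivialType X := by
  refine ⟨p, T, hp, fun n x => ?_⟩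
  have hd : DenseRange (Pi.map (fun _ : Fin n => (j : V → X))) := DenseRange.piMap (fun _ => hj)
  have hp0 : 0 ≤ p := by linarith
  refine hd.induction_on x (p := fun x => (∑ ε : Fin n → Bool,
    ‖∑ i, (if ε i then (1 : ℝ) else -1) • x i‖) / 2 ^ n ≤ T * (∑ i, ‖x i‖ ^ p) ^ (1 / p)) ?_ ?_
  · refine isClosed_le (by fun_prop) (continuous_const.mul ?_)
    refine Continuous.rpow_const (continuous_finsetSum _ (fun i _ => ?_))
      (fun _ => Or.inr (by positivity))
    exact Continuous.rpow_const (by fun_prop) (fun _ => Or.inr hp0)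
  · intro v
    have := h n v
    simp only [← hN, map_sum, map_smul] at this
    exact this

lemma cotype_of_dense (j : V →ₗ[ℝ] X) (hj : DenseRange j) (N : V → ℝ) (hN : ∀ v, ‖j v‖ = N v)
    {q C : ℝ} (hq : 2 ≤ q) (h : ∀ (n : ℕ) (x : Fin n → V), (∑ i, N (x i) ^ q) ^ (1 / q) ≤
      C * ((∑ ε : Fin n → Bool, N (∑ i, sg (ε i) • x i)) / 2 ^ n)) :
    NontrivialCotype X := by
  refine ⟨q, C, hq, fun n x => ?_⟩
  have hd : DenseRange (Pi.map (fun _ : Fin n => (j : V → X))) := DenseRange.piMap (fun _ => hj)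
  have hp0 : 0 ≤ q := by linarith
  refine hd.induction_on x (p := fun x => (∑ i, ‖x i‖ ^ q) ^ (1 / q) ≤ C * ((∑ ε : Fin n → Bool,
    ‖∑ i, (if ε i then (1 : ℝ) else -1) • x i‖) / 2 ^ n)) ?_ ?_
  · refine isClosed_le ?_ (by fun_prop)
    refine Continuous.rpow_const (continuous_finsetSum _ (fun i _ => ?_))
      (fun _ => Or.inr (by positivity))
    exact Continuous.rpow_const (by fun_prop) (fun _ => Or.inr hp0)
  · intro v
    have := h n v
    simp only [← hN, map_sum, map_smul] at this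
    exact this

end Pool.Agent.H712Z.CK
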