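import Pool.Agent.H712Z.CK.Cum

set_option autoImplicit false

namespace Pool.Agent.H712Z.CK

open Pool.Agent.H712Z.Cot

lemma cum_congr (μ : VV) {a l : WithBot ℚ} (h : ∀ c ∈ μ.support, c < a) (hl : a ≤ l) :
    cum l μ = cum a μ := by
  rw [cum, cum, Finsupp.linearCombination_apply, Finsupp.linearCombination_apply]
  refine Finsupp.sum_congr (fun c hc => ?_)
  rw [if_pos ((h c hc).le.trans hl), if_pos (h c hc).le]

lemma exists_push (Φ : ℝ → ℝ) (h0 : Φ 0 = 0) (μ : VV) :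
    ∃ ν : VV, ∀ l, cum l ν = Φ (cum l μ) ∧ ν l = Φ (cum l μ) - Φ (cum l μ - μ l) := by
  induction μ using Finsupp.induction_on_max with
  | zero => exact ⟨0, fun l => by simp [h0]⟩
  | single_add a b μ h1 h2 ih =>
    obtain ⟨ν, hν⟩ := ih
    have hz : ∀ l, a ≤ l → μ l = 0 := by
      intro l hl
      by_contra hcon
      exact absurd (h1 l (Finsupp.mem_support_iff.2 hcon)) (not_lt.2 hl)
    refine ⟨Finsupp.single a (Φ (b + cum a μ) - Φ (cum a μ)) + ν, fun l => ?_⟩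
    obtain ⟨a1, a2⟩ := hν l
    rw [map_add, map_add, cum_single, cum_single, Finsupp.add_apply, Finsupp.add_apply, a1, a2]
    rcases lt_trichotomy l a with h | h | h
    · rw [if_neg (not_le.2 h), if_neg (not_le.2 h), Finsupp.single_eq_of_ne h.ne,
        Finsupp.single_eq_of_ne h.ne]
      simp
    · subst h
      rw [if_pos le_rfl, if_pos le_rfl, Finsupp.single_eq_same, Finsupp.single_eq_same, hz l le_rfl]
      simp
    · rw [if_pos h.le, if_pos h.le, Finsupp.single_eq_of_ne h.ne', Finsupp.single_eq_of_ne h.ne',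
        hz l h.le, cum_congr μ h1 h.le]
      simp

/-- bound for the cumulative sums and their left limits -/
def SB (u : VV) (a : ℝ) : Prop := ∀ l, |cum l u| ≤ a ∧ |cum l u - u l| ≤ a

lemma SB.add {u v : VV} {a b : ℝ} (hu : SB u a) (hv : SB v b) : SB (u + v) (a + b) := by
  intro l
  obtain ⟨a1, a2⟩ := hu l
  obtain ⟨b1, b2⟩ := hv l
  rw [map_add, Finsupp.add_apply, add_sub_add_comm]
  exact ⟨(abs_add_le _ _).trans (add_le_add a1 b1), (abs_add_le _ _).trans (add_le_add a2 b2)⟩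

lemma SB.smul {u : VV} {a : ℝ} (hu : SB u a) (c : ℝ) : SB (c • u) (|c| * a) := by
  intro l
  obtain ⟨a1, a2⟩ := hu l
  rw [map_smul, Finsupp.smul_apply, smul_eq_mul, smul_eq_mul, ← mul_sub, abs_mul, abs_mul]
  exact ⟨mul_le_mul_of_nonneg_left a1 (abs_nonneg c), mul_le_mul_of_nonneg_left a2 (abs_nonneg c)⟩

lemma SB.mono {u : VV} {a b : ℝ} (hu : SB u a) (h : a ≤ b) : SB u b :=
  fun l => ⟨(hu l).1.trans h, (hu l).2.trans h⟩

lemma sb_zero : SB 0 0 := fun l => by simp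

lemma sb_sum {ι : Type} (s : Finset ι) (u : ι → VV) (a : ι → ℝ) (h : ∀ i, SB (u i) (a i)) :
    SB (∑ i ∈ s, u i) (∑ i ∈ s, a i) := by
  classical
  induction s using Finset.induction_on with
  | empty => simpa using sb_zero
  | insert i s hi ih => rw [Finset.sum_insert hi, Finset.sum_insert hi]; exact (h i).add ih

lemma exists_split (U : VV) {τ : ℝ} (hτ : 0 ≤ τ) :
    ∃ G0 G1 : VV, U = G0 + G1 ∧ SB G1 τ ∧ l1 G1 ≤ l1 U ∧ (∀ a, SB U a → SB G0 a) ∧
      (∀ l, |G0 l| ≤ |U l|) ∧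
      ∀ l, τ ^ 2 * |G0 l| ≤ |U l| * (cum l U ^ 2 + (cum l U - U l) ^ 2) := by
  let Φ : ℝ → ℝ := fun t => max (-τ) (min t τ)
  have hΦ1 : ∀ t, |Φ t| ≤ τ := fun t =>
    abs_le.2 ⟨le_max_left _ _, max_le (by linarith) (min_le_right _ _)⟩
  have hΦ2 : ∀ t, |t| ≤ τ → Φ t = t := by
    intro t ht
    have := abs_le.1 ht
    simp only [Φ]
    rw [min_eq_left this.2, max_eq_right this.1]
  have hΦ3 : ∀ s t, s ≤ t → Φ s ≤ Φ t ∧ Φ t - Φ s ≤ t - s := by
    intro s t hst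
    simp only [Φ, max_def, min_def]
    split_ifs <;> constructor <;> linarith
  have hΦ4 : ∀ s t, |Φ t - Φ s| ≤ |t - s| ∧ |(t - s) - (Φ t - Φ s)| ≤ |t - s| := by
    intro s t
    rcases le_total s t with h | h
    · obtain ⟨a1, a2⟩ := hΦ3 s t h
      rw [abs_of_nonneg (sub_nonneg.2 h)]
      exact ⟨abs_le.2 ⟨by linarith, a2⟩, abs_le.2 ⟨by linarith, by linarith⟩⟩
    · obtain ⟨a1, a2⟩ := hΦ3 t s h
      rw [abs_of_nonpos (sub_nonpos.2 h)]
      exact ⟨abs_le.2 ⟨by linarith, by linarith⟩, abs_le.2 ⟨by linarith, by linarith⟩⟩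
  have hΦ0 : Φ 0 = 0 := hΦ2 0 (by simpa using hτ)
  have hΦ5 : ∀ t, |t - Φ t| ≤ |t| := by
    intro t
    have := (hΦ4 0 t).2
    simpa [hΦ0] using this
  obtain ⟨ν, hν⟩ := exists_push Φ hΦ0 U
  have h1 : ∀ l, |(U - ν) l| ≤ |U l| := by
    intro l
    have := (hΦ4 (cum l U - U l) (cum l U)).2
    rw [sub_sub_cancel] at this
    rw [Finsupp.sub_apply, (hν l).2]
    exact this
  refine ⟨U - ν, ν, by simp, fun l => ?_, l1_mono (fun l => ?_), fun a ha l => ?_, h1, fun l => ?_⟩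
  · rw [(hν l).2, (hν l).1, sub_sub_cancel]
    exact ⟨hΦ1 _, hΦ1 _⟩
  · have := (hΦ4 (cum l U - U l) (cum l U)).1
    rw [sub_sub_cancel] at this
    rw [(hν l).2]
    exact this
  · rw [map_sub, Finsupp.sub_apply, (hν l).2, (hν l).1]
    refine ⟨(hΦ5 _).trans (ha l).1, ?_⟩
    have e : cum l U - Φ (cum l U) - (U l - (Φ (cum l U) - Φ (cum l U - U l))) =
        (cum l U - U l) - Φ (cum l U - U l) := by ring
    rw [e]
    exact (hΦ5 _).trans (ha l).2
  · by_cases h : |cum l U| ≤ τ ∧ |cum l U - U l| ≤ τ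
    · rw [Finsupp.sub_apply, (hν l).2, hΦ2 _ h.1, hΦ2 _ h.2, sub_sub_cancel, sub_self, abs_zero,
        mul_zero]
      positivity
    · have h2 : τ ^ 2 ≤ cum l U ^ 2 + (cum l U - U l) ^ 2 := by
        rw [not_and_or, not_le, not_le] at h
        rcases h with h | h
        · have := pow_le_pow_left₀ hτ h.le 2
          rw [sq_abs] at this
          nlinarith [sq_nonneg (cum l U - U l)]
        · have := pow_le_pow_left₀ hτ h.le 2
          rw [sq_abs] at this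
          nlinarith [sq_nonneg (cum l U)]
      rw [mul_comm]
      exact mul_le_mul (h1 l) h2 (sq_nonneg _) (abs_nonneg _)

lemma second_moment {ι : Type} [Fintype ι] [DecidableEq ι] (s : Finset ι) (c : ι → ℝ) :
    ∑ ε : ι → Bool, (∑ i ∈ s, sg (ε i) * c i) ^ 2 = 2 ^ Fintype.card ι * ∑ i ∈ s, c i ^ 2 := by
  have h1 : ∀ (j : ι) (ε : ι → Bool), riesz (Pi.single j (1 : ℝ)) ε = sg (ε j) := by
    intro j ε
    unfold riesz
    rw [Finset.prod_eq_single j]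
    · simp
    · intro i _ hi
      simp [Pi.single_eq_of_ne hi]
    · simp
  have h2 : ∀ i j : ι, ∑ ε : ι → Bool, sg (ε i) * sg (ε j) =
      2 ^ Fintype.card ι * (Pi.single j (1 : ℝ) : ι → ℝ) i := by
    intro i j
    rw [← sum_sg_riesz]
    simp only [h1]
  calc ∑ ε : ι → Bool, (∑ i ∈ s, sg (ε i) * c i) ^ 2
      = ∑ i ∈ s, ∑ j ∈ s, (∑ ε : ι → Bool, sg (ε i) * sg (ε j)) * (c i * c j) := by
        simp only [sq, Finset.sum_mul_sum]
        simp only [Finset.sum_mul]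
        rw [Finset.sum_comm]
        refine Finset.sum_congr rfl (fun i _ => ?_)
        rw [Finset.sum_comm]
        exact Finset.sum_congr rfl (fun _ _ => Finset.sum_congr rfl (fun _ _ => by ring))
    _ = _ := by
        rw [Finset.mul_sum]
        refine Finset.sum_congr rfl (fun i hi => ?_)
        rw [Finset.sum_eq_single i]
        · rw [h2]; simp [sq]
        · intro j _ hj
          rw [h2, Pi.single_eq_of_ne hj.symm]; simp
        · intro h; exact absurd hi h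

lemma level {ι : Type} [Fintype ι] [DecidableEq ι] (s : Finset ι) (u : ι → VV) (J : ι → ℝ)
    {b ν σ : ℝ} (hb : 0 < b) (hν : 0 ≤ ν) (hσ : 0 ≤ σ) (hσ2 : σ ^ 2 = ∑ i ∈ s, J i ^ 2)
    (h1 : ∀ i, SB (u i) (J i / b)) (h2 : ∀ i, l1 (u i) ≤ b * J i) :
    ∃ (G0 G1 : (ι → Bool) → VV) (B : (ι → Bool) → ℝ), (∀ ε, ∑ i ∈ s, sg (ε i) • u i = G0 ε + G1 ε ∧
      SB (G1 ε) (ν * σ / b) ∧ l1 (G1 ε) ≤ b * ∑ i ∈ s, J i ∧ SB (G0 ε) ((∑ i ∈ s, J i) / b) ∧
      0 ≤ B ε ∧ l1 (G0 ε) ≤ b * B ε) ∧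
      ν ^ 2 * ∑ ε, B ε ^ 2 ≤ 2 * 2 ^ Fintype.card ι * (∑ i ∈ s, J i) ^ 2 := by
  classical
  choose G0 G1 g1 g2 g3 g4 g5 g6 using fun ε : ι → Bool =>
    exists_split (∑ i ∈ s, sg (ε i) • u i) (show 0 ≤ ν * σ / b by positivity)
  set A := ∑ i ∈ s, J i with hA
  have hJ : ∀ i, 0 ≤ J i := fun i => by
    have := (l1_nonneg _).trans (h2 i)
    exact nonneg_of_mul_nonneg_right this hb |> fun h => by nlinarith
  have hA0 : 0 ≤ A := Finset.sum_nonneg (fun i _ => hJ i)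
  have hsl : ∑ i ∈ s, l1 (u i) ≤ b * A := by
    rw [hA, Finset.mul_sum]; exact Finset.sum_le_sum (fun i _ => h2 i)
  have hU : ∀ ε : ι → Bool, l1 (∑ i ∈ s, sg (ε i) • u i) ≤ b * A := by
    intro ε
    refine (l1_sum _ _).trans (le_trans (le_of_eq ?_) hsl)
    exact Finset.sum_congr rfl (fun i _ => by rw [l1_smul, abs_sg, one_mul])
  have hG0 : ∀ ε, l1 (G0 ε) ≤ b * A := fun ε => (l1_mono (g5 ε)).trans (hU ε)
  refine ⟨G0, G1, fun ε => l1 (G0 ε) / b, fun ε => ⟨g1 ε, g2 ε, (g3 ε).trans (hU ε), g4 ε _ ?_,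
    div_nonneg (l1_nonneg _) hb.le, by rw [mul_div_cancel₀ _ hb.ne']⟩, ?_⟩
  · rw [hA, Finset.sum_div]
    refine sb_sum s _ _ (fun i => ?_)
    have := (h1 i).smul (sg (ε i))
    rwa [abs_sg, one_mul] at this
  set T := s.biUnion (fun i => (u i).support) with hT
  have hmom : ∀ c : ι → ℝ, (∀ i, |c i| ≤ J i / b) →
      ∑ ε : ι → Bool, (∑ i ∈ s, sg (ε i) * c i) ^ 2 ≤ 2 ^ Fintype.card ι * (σ / b) ^ 2 := by
    intro c hc
    rw [second_moment, div_pow, hσ2, Finset.sum_div]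
    refine mul_le_mul_of_nonneg_left (Finset.sum_le_sum (fun i _ => ?_)) (by positivity)
    rw [← div_pow, ← sq_abs]
    exact pow_le_pow_left₀ (abs_nonneg _) (hc i) 2
  have hUl : ∀ (ε : ι → Bool) l, |(∑ i ∈ s, sg (ε i) • u i) l| ≤ ∑ i ∈ s, |u i l| := by
    intro ε l
    rw [Finsupp.finsetSum_apply]
    refine (Finset.abs_sum_le_sum_abs _ _).trans (le_of_eq (Finset.sum_congr rfl (fun i _ => ?_)))
    rw [Finsupp.smul_apply, smul_eq_mul, abs_mul, abs_sg, one_mul]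
  have hsupp : ∀ ε, (G0 ε).support ⊆ T := by
    intro ε l hl
    by_contra hcon
    have h3 : ∑ i ∈ s, |u i l| = 0 := by
      refine Finset.sum_eq_zero (fun i hi => ?_)
      rw [abs_eq_zero]
      by_contra h4
      exact hcon (Finset.mem_biUnion.2 ⟨i, hi, Finsupp.mem_support_iff.2 h4⟩)
    have h4 := (g5 ε l).trans (hUl ε l)
    rw [h3] at h4
    exact Finsupp.mem_support_iff.1 hl (abs_nonpos_iff.1 h4)
  have hpt : ∀ l, (ν * σ / b) ^ 2 * ∑ ε, |G0 ε l| ≤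
      (∑ i ∈ s, |u i l|) * (2 * (2 ^ Fintype.card ι * (σ / b) ^ 2)) := by
    intro l
    have a1 := hmom (fun i => cum l (u i)) (fun i => (h1 i l).1)
    have a2 := hmom (fun i => cum l (u i) - u i l) (fun i => (h1 i l).2)
    have a3 : 0 ≤ ∑ i ∈ s, |u i l| := Finset.sum_nonneg (fun _ _ => abs_nonneg _)
    refine le_trans ?_ (mul_le_mul_of_nonneg_left (show ∑ ε : ι → Bool,
      (∑ i ∈ s, sg (ε i) * cum l (u i)) ^ 2 + ∑ ε : ι → Bool,
      (∑ i ∈ s, sg (ε i) * (cum l (u i) - u i l)) ^ 2 ≤ _ by linarith) a3)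
    rw [← Finset.sum_add_distrib, Finset.mul_sum, Finset.mul_sum]
    refine Finset.sum_le_sum (fun ε _ => (g6 ε l).trans ?_)
    refine mul_le_mul (hUl ε l) (le_of_eq ?_) (by positivity) a3
    simp only [map_sum, map_smul, Finsupp.finsetSum_apply, Finsupp.smul_apply, smul_eq_mul,
      mul_sub, Finset.sum_sub_distrib]
  have htot : (ν * σ / b) ^ 2 * ∑ ε, l1 (G0 ε) ≤
      (b * A) * (2 * (2 ^ Fintype.card ι * (σ / b) ^ 2)) := by
    calc (ν * σ / b) ^ 2 * ∑ ε, l1 (G0 ε) = ∑ l ∈ T, (ν * σ / b) ^ 2 * ∑ ε, |G0 ε l| := by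
          rw [← Finset.mul_sum, Finset.sum_comm]
          congr 1
          exact Finset.sum_congr rfl (fun ε _ => l1_eq _ (hsupp ε))
      _ ≤ ∑ l ∈ T, (∑ i ∈ s, |u i l|) * (2 * (2 ^ Fintype.card ι * (σ / b) ^ 2)) :=
          Finset.sum_le_sum (fun l _ => hpt l)
      _ ≤ _ := by
          rw [← Finset.sum_mul, Finset.sum_comm]
          refine mul_le_mul_of_nonneg_right (le_trans ?_ hsl) (by positivity)
          exact Finset.sum_le_sum (fun i _ => sum_le_l1 _ T)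
  have hfin : ν ^ 2 * ∑ ε, l1 (G0 ε) ≤ (b * A) * (2 * 2 ^ Fintype.card ι) := by
    rcases hσ.eq_or_lt with h0 | h0
    · have h3 : ∀ i ∈ s, J i = 0 := by
        intro i hi
        have h4 : J i ^ 2 ≤ ∑ i ∈ s, J i ^ 2 :=
          Finset.single_le_sum (f := fun i => J i ^ 2) (fun _ _ => sq_nonneg _) hi
        rw [← hσ2, ← h0] at h4
        exact pow_eq_zero_iff (two_ne_zero) |>.1 (le_antisymm (by simpa using h4) (sq_nonneg _))
      have h4 : A = 0 := Finset.sum_eq_zero h3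
      have h5 : ∑ ε, l1 (G0 ε) = 0 := Finset.sum_eq_zero (fun ε _ =>
        le_antisymm (by simpa [h4] using hG0 ε) (l1_nonneg _))
      rw [h5, h4]; simp
    · have h3 : 0 < (σ / b) ^ 2 := by positivity
      refine le_of_mul_le_mul_right ?_ h3
      have e : (ν * σ / b) ^ 2 = ν ^ 2 * (σ / b) ^ 2 := by ring
      rw [e] at htot
      linarith
  have h7 : ∑ ε, (l1 (G0 ε) / b) ^ 2 ≤ A / b * ∑ ε, l1 (G0 ε) := by
    rw [Finset.mul_sum]
    refine Finset.sum_le_sum (fun ε _ => ?_)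
    have a1 : l1 (G0 ε) / b ≤ A := by rw [div_le_iff₀ hb]; linarith [hG0 ε]
    have a2 : 0 ≤ l1 (G0 ε) / b := div_nonneg (l1_nonneg _) hb.le
    calc (l1 (G0 ε) / b) ^ 2 ≤ A * (l1 (G0 ε) / b) := by rw [sq]; gcongr
      _ = _ := by ring
  calc ν ^ 2 * ∑ ε, (l1 (G0 ε) / b) ^ 2 ≤ ν ^ 2 * (A / b * ∑ ε, l1 (G0 ε)) := by gcongr
    _ = A / b * (ν ^ 2 * ∑ ε, l1 (G0 ε)) := by ring
    _ ≤ A / b * ((b * A) * (2 * 2 ^ Fintype.card ι)) := by gcongr
    _ = _ := by field_simp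

end Pool.Agent.H712Z.CK
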