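import Pool.Agent.H712Z.CK.Defs
import Pool.Agent.H712Z.Cot.Riesz

set_option autoImplicit false

namespace Pool.Agent.H712Z.CK

open Pool.Agent.H712Z.Cot
open scoped ENNReal NNReal

lemma two_le_cEmb {X : Type 1} [MetricSpace X] {M : Type} [MetricSpace M]
    (h : ∀ (f : M → X) (a b : ℝ), 0 ≤ a → 0 < b → a * b < 2 →
      (∀ x y, dist (f x) (f y) ≤ a * dist x y) → (∀ x y, dist x y ≤ b * dist (f x) (f y)) →
      False) : 2 ≤ cEmb X M := by
  unfold cEmb
  simp only [le_iInf_iff]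
  intro f a b ha hb
  by_contra hcon
  have h1 : (a : ℝ) * b < 2 := by
    have := not_le.1 hcon
    rw [← ENNReal.coe_mul] at this
    exact_mod_cast this
  rcases b.2.eq_or_lt with h0 | h0
  · have h2 : (b : ℝ) = 0 := h0.symm
    have ha0 : (0 : ℝ) ≤ a := a.2
    refine h f a (1 / (a + 1)) a.2 (by positivity) ?_ ha.dist_le_mul (fun x y => ?_)
    · rw [mul_one_div, div_lt_iff₀ (by positivity)]; linarith
    · have := hb.le_mul_dist x y
      rw [h2, zero_mul] at this
      exact this.trans (by positivity)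
  · exact h f a b a.2 h0 h1 ha.dist_le_mul hb.le_mul_dist

variable {K : Type 1} [TopologicalSpace K] [CompactSpace K]

lemma exists_gap (g h : C(K, ℝ)) {D : ℝ} (hD : 0 < D) (hd : D ≤ dist g h) :
    ∃ (ξ : K) (σ : Bool), D ≤ sg σ * (g ξ - h ξ) := by
  by_contra hcon
  push Not at hcon
  have : dist g h < D := by
    rw [ContinuousMap.dist_lt_iff hD]
    intro ξ
    have h1 := hcon ξ true
    have h2 := hcon ξ false
    simp only [sg] at h1 h2
    rw [Real.dist_eq, abs_lt]
    norm_num at h1 h2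
    constructor <;> linarith
  linarith

lemma sg_mul_le (σ : Bool) (g h : C(K, ℝ)) (ξ : K) : sg σ * (g ξ - h ξ) ≤ dist g h := by
  have h1 := ContinuousMap.dist_apply_le_dist (f := g) (g := h) ξ
  rw [Real.dist_eq] at h1
  refine (le_abs_self _).trans ?_
  rwa [abs_mul, abs_sg, one_mul]

lemma unc [Countable K] (v : ℚ → C(K, ℝ)) {δ : ℝ} (hδ : 0 < δ)
    (h : ∀ c c' : ℚ, c < c' → ∃ (ξ : K) (σ : Bool), ∀ q, q ≤ c → ∀ q', c' ≤ q' →
      δ ≤ sg σ * (v q ξ - v q' ξ)) : False := by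
  have key : ∀ r : ℝ, ∃ p : K × Bool × ℚ, (∀ q : ℚ, (q : ℝ) < r → (p.2.2 : ℝ) < sg p.2.1 * v q p.1) ∧
      ∀ q : ℚ, r < q → sg p.2.1 * v q p.1 < p.2.2 := by
    intro r
    let ι := {p : ℚ × ℚ // (p.1 : ℝ) < r ∧ r < p.2}
    obtain ⟨c0, hc0⟩ := exists_rat_lt r
    obtain ⟨c1, hc1⟩ := exists_rat_gt r
    have : Nonempty ι := ⟨⟨(c0, c1), hc0, hc1⟩⟩
    let t : ι → Set (K × Bool) := fun p =>
      {x | ∀ q, q ≤ p.1.1 → ∀ q', p.1.2 ≤ q' → δ ≤ sg x.2 * (v q x.1 - v q' x.1)}
    have hcl : ∀ p, IsClosed (t p) := by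
      intro p
      simp only [t, Set.setOf_forall]
      refine isClosed_iInter fun q => isClosed_iInter fun _ => isClosed_iInter fun q' =>
        isClosed_iInter fun _ => isClosed_le continuous_const ?_
      have : Continuous sg := continuous_of_discreteTopology
      fun_prop
    obtain ⟨x, hx⟩ := IsCompact.nonempty_iInter_of_directed_nonempty_isCompact_isClosed t (by
        intro p p'
        refine ⟨⟨(max p.1.1 p'.1.1, min p.1.2 p'.1.2), ?_, ?_⟩, ?_, ?_⟩
        · push_cast; exact max_lt p.2.1 p'.2.1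
        · push_cast; exact lt_min p.2.2 p'.2.2
        · intro x hx q hq q' hq'
          exact hx q (hq.trans (le_max_left _ _)) q' ((min_le_left _ _).trans hq')
        · intro x hx q hq q' hq'
          exact hx q (hq.trans (le_max_right _ _)) q' ((min_le_right _ _).trans hq'))
      (fun p => by
        obtain ⟨ξ, σ, H⟩ := h p.1.1 p.1.2 (by exact_mod_cast p.2.1.trans p.2.2)
        exact ⟨(ξ, σ), H⟩) (fun p => (hcl p).isCompact) hcl
    have hx' : ∀ q q' : ℚ, (q : ℝ) < r → r < q' → sg x.2 * v q' x.1 + δ ≤ sg x.2 * v q x.1 := by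
      intro q q' h1 h2
      have := Set.mem_iInter.1 hx ⟨(q, q'), h1, h2⟩ q le_rfl q' le_rfl
      linarith
    let A : Set ℝ := {y | ∃ q : ℚ, (q : ℝ) < r ∧ y = sg x.2 * v q x.1}
    have hA : A.Nonempty := ⟨_, c0, hc0, rfl⟩
    have hAb : BddBelow A := ⟨_, by rintro _ ⟨q, hq, rfl⟩; exact hx' q c1 hq hc1⟩
    obtain ⟨s, hs1, hs2⟩ := exists_rat_btwn (show sInf A - δ < sInf A by linarith)
    refine ⟨(x.1, x.2, s), fun q hq => hs2.trans_le (csInf_le hAb ⟨q, hq, rfl⟩), fun q hq => ?_⟩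
    have : sg x.2 * v q x.1 + δ ≤ sInf A :=
      le_csInf hA (by rintro _ ⟨q', hq', rfl⟩; exact hx' q' q hq' hq)
    simp only
    linarith
  choose p h1 h2 using key
  have hinj : Function.Injective p := by
    intro r r' e
    by_contra hne
    rcases lt_or_gt_of_ne hne with h3 | h3
    · obtain ⟨q, hq1, hq2⟩ := exists_rat_btwn h3
      have a1 := h2 r q hq1
      have a2 := h1 r' q hq2
      rw [e] at a1
      linarith
    · obtain ⟨q, hq1, hq2⟩ := exists_rat_btwn h3
      have a1 := h2 r' q hq1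
      have a2 := h1 r q hq2
      rw [e] at a2
      linarith
  have := hinj.countable
  exact not_countable (α := ℝ) this

theorem two_le_of_rat [Countable K] {M : Type} [MetricSpace M] (z x y : ℚ → M)
    (hx : ∀ q c, q ≤ c → dist (x c) (z q) ≤ 1) (hy : ∀ q c, c ≤ q → dist (y c) (z q) ≤ 1)
    (hxy : ∀ c c', c < c' → 4 ≤ dist (x c) (y c')) : 2 ≤ cEmb C(K, ℝ) M := by
  refine two_le_cEmb (fun f a b ha hb hab h1 h2 => ?_)
  have hδ : 0 < 4 / b - 2 * a := by
    rw [sub_pos, lt_div_iff₀ hb]; linarith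
  refine unc (fun q => f (z q)) hδ (fun c c' hc => ?_)
  obtain ⟨ξ, σ, H⟩ := exists_gap (f (x c)) (f (y c')) (D := 4 / b) (by positivity) (by
    rw [div_le_iff₀ hb]
    have := h2 (x c) (y c')
    have := hxy c c' hc
    linarith)
  refine ⟨ξ, σ, fun q hq q' hq' => ?_⟩
  have a1 := sg_mul_le σ (f (x c)) (f (z q)) ξ
  have a2 := sg_mul_le σ (f (z q')) (f (y c')) ξ
  have a3 := h1 (x c) (z q)
  have a4 := h1 (z q') (y c')
  have a5 := mul_le_mul_of_nonneg_left (hx q c hq) ha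
  have a6 := mul_le_mul_of_nonneg_left (hy q' c' hq') ha
  rw [dist_comm] at a6
  linarith

lemma countable_Icc {α : Ordinal.{0}} (hα : α < Ordinal.omega 1) :
    Countable (Set.Icc (0 : Ordinal.{0}) (Ordinal.omega0 ^ α)) := by
  have h1 : α.card ≤ Cardinal.aleph0 := by
    rw [Cardinal.card_le_iff, Cardinal.succ_aleph0, Cardinal.ord_aleph]
    exact hα
  have h2 : (Ordinal.omega0 ^ α).card ≤ Cardinal.aleph0 :=
    (Ordinal.card_opow_le _ _).trans (max_le le_rfl (max_le (by simp) h1))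
  have h3 : (Set.Iio (Ordinal.omega0 ^ α)).Countable := by
    rw [← Cardinal.le_aleph0_iff_set_countable, Cardinal.mk_Iio_ordinal]
    exact Cardinal.lift_le_aleph0.2 h2
  refine Set.Countable.to_subtype ((h3.insert (Ordinal.omega0 ^ α)).mono ?_)
  intro ξ hξ
  rcases hξ.2.eq_or_lt with h | h
  · exact Or.inl h
  · exact Or.inr h

end Pool.Agent.H712Z.CK
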