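import Pool.Agent.H712Z.CK.Ord

set_option autoImplicit false

namespace Pool.Agent.H712Z.CK

open Ordinal Order Metric
open scoped ENNReal NNReal

variable {M : Type} [MetricSpace M]

open Classical in
/-- distance to a set, with the value `t` for the empty set -/
noncomputable def dd (V : Set M) (t : ℝ) (z : M) : ℝ := if V.Nonempty then infDist z V else t

lemma dd_lip (V : Set M) (t : ℝ) (z w : M) : |dd V t z - dd V t w| ≤ dist z w := by
  unfold dd
  split_ifs
  · have := (lipschitz_infDist_pt V).dist_le_mul z w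
    rwa [NNReal.coe_one, one_mul, Real.dist_eq] at this
  · simp

lemma dd_nonneg (V : Set M) {t : ℝ} (ht : 0 ≤ t) (z : M) : 0 ≤ dd V t z := by
  unfold dd
  split_ifs
  · exact infDist_nonneg
  · exact ht

lemma dd_of_mem {V : Set M} (t : ℝ) {z : M} (hz : z ∈ V) : dd V t z = 0 := by
  unfold dd
  rw [if_pos ⟨z, hz⟩, infDist_zero_of_mem hz]

lemma le_dd {V : Set M} {t s : ℝ} {z : M} (hs : s ≤ t) (h : ∀ w ∈ V, s ≤ dist z w) :
    s ≤ dd V t z := by
  unfold dd
  split_ifs with hV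
  · exact (le_infDist hV).2 (fun _ hw => h _ hw)
  · exact hs

lemma lip_max {f g : M → ℝ} (hf : ∀ z w, |f z - f w| ≤ dist z w)
    (hg : ∀ z w, |g z - g w| ≤ dist z w) (z w : M) :
    |max (f z) (g z) - max (f w) (g w)| ≤ dist z w :=
  (abs_max_sub_max_le_max _ _ _ _).trans (max_le (hf z w) (hg z w))

lemma lip_min {f g : M → ℝ} (hf : ∀ z w, |f z - f w| ≤ dist z w)
    (hg : ∀ z w, |g z - g w| ≤ dist z w) (z w : M) :
    |min (f z) (g z) - min (f w) (g w)| ≤ dist z w :=
  (abs_min_sub_min_le_max _ _ _ _).trans (max_le (hf z w) (hg z w))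

lemma lip_const (c : ℝ) (z w : M) : |(fun _ : M => c) z - (fun _ : M => c) w| ≤ dist z w := by
  simp

lemma lip_sub_const {f : M → ℝ} (hf : ∀ z w, |f z - f w| ≤ dist z w) (c : ℝ) (z w : M) :
    |(f z - c) - (f w - c)| ≤ dist z w := by
  have : (f z - c) - (f w - c) = f z - f w := by ring
  rw [this]; exact hf z w

lemma lip_add_const {f : M → ℝ} (hf : ∀ z w, |f z - f w| ≤ dist z w) (c : ℝ) (z w : M) :
    |(f z + c) - (f w + c)| ≤ dist z w := by
  have : (f z + c) - (f w + c) = f z - f w := by ring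
  rw [this]; exact hf z w

lemma lip_const_sub {f : M → ℝ} (hf : ∀ z w, |f z - f w| ≤ dist z w) (c : ℝ) (z w : M) :
    |(c - f z) - (c - f w)| ≤ dist z w := by
  have : (c - f z) - (c - f w) = -(f z - f w) := by ring
  rw [this, abs_neg]; exact hf z w

/-- the pieces of the partition attached to a dense sequence -/
def piece (c : ℕ → M) (R : ℝ) (n : ℕ) : Set M :=
  {z | dist z (c n) < R ∧ ∀ m < n, R ≤ dist z (c m)}

lemma exists_piece {c : ℕ → M} (hc : DenseRange c) {R : ℝ} (hR : 0 < R) (z : M) :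
    ∃ n, z ∈ piece c R n := by
  classical
  have h : ∃ n, dist z (c n) < R := hc.exists_dist_lt z hR
  exact ⟨Nat.find h, Nat.find_spec h, fun m hm => not_lt.1 (Nat.find_min h hm)⟩

lemma far_piece {c : ℕ → M} (hc : DenseRange c) {R s : ℝ} (hs : s < R) (z : M) :
    ∃ m0 : ℕ, ∀ m, m0 < m → ∀ w ∈ piece c R m, s ≤ dist z w := by
  obtain ⟨m0, h⟩ := hc.exists_dist_lt z (show 0 < R - s by linarith)
  refine ⟨m0, fun m hm w hw => ?_⟩
  have h1 := hw.2 m0 hm
  have h2 := dist_triangle w z (c m0)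
  rw [dist_comm w z] at h2
  linarith

lemma finite_scales {ρ : ℝ} (hρ : 1 < ρ) {s t : ℝ} (hs : 0 < s) (P : ℤ × ℕ → Prop)
    (h1 : ∀ j n, P (j, n) → s < ρ ^ j ∧ ρ ^ j < t)
    (h2 : ∀ j, ∃ m0, ∀ n, P (j, n) → n ≤ m0) : {x | P x}.Finite := by
  have hρ0 : 0 < ρ := by linarith
  obtain ⟨j0, hj0, -⟩ := exists_mem_Ico_zpow hs hρ
  obtain ⟨N, hN⟩ := pow_unbounded_of_one_lt t hρ
  choose m0 hm0 using h2
  have hfin : (⋃ j ∈ Set.Icc j0 (N : ℤ), ({j} : Set ℤ) ×ˢ Set.Iic (m0 j)).Finite :=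
    (Set.finite_Icc _ _).biUnion (fun j _ => (Set.finite_singleton j).prod (Set.finite_Iic _))
  refine hfin.subset ?_
  rintro ⟨j, n⟩ hP
  obtain ⟨a, b⟩ := h1 j n hP
  simp only [Set.mem_iUnion, Set.mem_prod, Set.mem_singleton_iff, Set.mem_Iic, Set.mem_Icc]
  refine ⟨j, ⟨?_, ?_⟩, rfl, hm0 j n hP⟩
  · exact ((zpow_lt_zpow_iff_right₀ hρ).1 (hj0.trans_lt a)).le
  · have : ρ ^ j < ρ ^ (N : ℤ) := by rw [zpow_natCast]; exact b.trans hN
    exact ((zpow_lt_zpow_iff_right₀ hρ).1 this).le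

/-- one location at one scale -/
lemma level_two {c : ℕ → M} (hc : DenseRange c) (o : M) {a R : ℝ} (ha : 0 < a) (hR : a < R)
    (n : ℕ) :
    ∃ G : M → Ordinal.{0} → ℝ, Sys Set.univ (ht 1) G ∧ (∀ z ξ, |G z ξ| ≤ a) ∧
      (∀ z ξ, (∀ m, n ≤ m → ∀ w ∈ piece c R m, R ≤ dist w o → a ≤ dist z w) → G z ξ = 0) ∧
      ∀ m, n ≤ m → ∀ x ∈ piece c R n, ∀ y ∈ piece c R m, R ≤ dist x o → R ≤ dist y o →
        2 * a + 2 * R ≤ dist x y → ∃ ξ, G x ξ - G y ξ = 2 * a := by
  let U : Set M := {w | w ∈ piece c R n ∧ R ≤ dist w o}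
  let V : ℕ → Set M := fun m => {w | w ∈ piece c R m ∧ R ≤ dist w o ∧ 2 * a + R ≤ dist (c n) w}
  let φ : M → ℝ := fun z => max 0 (a - dd U (2 * a) z)
  have hφ : ∀ z w, |φ z - φ w| ≤ dist z w :=
    lip_max (lip_const 0) (lip_const_sub (dd_lip U (2 * a)) a)
  have hφ0 : ∀ z, 0 ≤ φ z := fun z => le_max_left _ _
  have hφa : ∀ z, φ z ≤ a := fun z =>
    max_le ha.le (by have := dd_nonneg U (show 0 ≤ 2 * a by linarith) z; linarith)
  let g : ℕ → M → ℝ := fun m z => if n ≤ m then min (φ z) (dd (V m) (2 * a) z - a) else φ z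
  have hg : ∀ m z w, |g m z - g m w| ≤ dist z w := by
    intro m z w
    simp only [g]
    split_ifs
    · exact lip_min hφ (lip_sub_const (dd_lip (V m) (2 * a)) a) z w
    · exact hφ z w
  have hUV : ∀ m, ∀ u ∈ U, ∀ w ∈ V m, 2 * a ≤ dist u w := by
    intro m u hu w hw
    have h1 := hu.1.1
    have h2 := hw.2.2
    have h3 := dist_triangle (c n) u w
    rw [dist_comm (c n) u] at h3
    linarith
  have hgφ : ∀ m z, (∀ w ∈ V m, a ≤ dist z w) → g m z = φ z := by
    intro m z h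
    simp only [g]
    split_ifs
    · apply min_eq_left
      rw [le_sub_iff_add_le]
      apply le_dd (by have := hφa z; linarith)
      intro w hw
      have h1 := h w hw
      have h2 : dd U (2 * a) z ≥ 2 * a - dist z w := by
        apply le_dd (by have := dist_nonneg (x := z) (y := w); linarith)
        intro u hu
        have h3 := hUV m u hu w hw
        have h4 := dist_triangle u z w
        rw [dist_comm u z] at h4
        linarith
      have h5 : φ z ≤ dist z w - a := max_le (by linarith) (by linarith)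
      linarith
    · rfl
  obtain ⟨G, g1, g2, -, g4⟩ := glue (S := Set.univ) (γ := 0) (fun m z _ => g m z) φ
    (fun m => sys_const _ _ _ (hg m)) hφ (by
      intro z _ ε hε
      obtain ⟨m0, h⟩ := far_piece hc hR z
      refine (Set.finite_Iic m0).subset ?_
      rintro m ⟨ξ, hm⟩
      by_contra hcon
      rw [hgφ m z (fun w hw => h m (not_le.1 hcon) w hw.1)] at hm
      simp at hm
      linarith)
  refine ⟨G, g1, ?_, ?_, ?_⟩
  · intro z ξ
    have h1 : |φ z| ≤ a := by rw [abs_of_nonneg (hφ0 z)]; exact hφa z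
    rcases g4 ξ with ⟨m, -, h⟩ | h
    · rw [h]
      simp only [g]
      split_ifs
      · rw [abs_le]
        have := dd_nonneg (V m) (show 0 ≤ 2 * a by linarith) z
        exact ⟨le_min (by linarith [hφ0 z]) (by linarith), (min_le_left _ _).trans (hφa z)⟩
      · exact h1
    · rw [h]; exact h1
  · intro z ξ H
    have h1 : φ z = 0 := by
      apply max_eq_left
      have : a ≤ dd U (2 * a) z :=
        le_dd (by linarith) (fun w hw => H n le_rfl w hw.1 hw.2)
      linarith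
    rcases g4 ξ with ⟨m, -, h⟩ | h
    · rw [h]
      by_cases hm : n ≤ m
      · rw [hgφ m z (fun w hw => H m hm w hw.1 hw.2.1), h1]
      · simp only [g, if_neg hm, h1]
    · rw [h, h1]
  · intro m hm x hx y hy hxo hyo hxy
    obtain ⟨ξ, hξ⟩ := g2 m 0
    refine ⟨ξ, ?_⟩
    rw [hξ, hξ]
    have hxU : x ∈ U := ⟨hx, hxo⟩
    have hyV : y ∈ V m := by
      refine ⟨hy, hyo, ?_⟩
      have h1 := hx.1
      have h2 := dist_triangle x (c n) y
      linarith
    have h1 : g m x = a := by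
      rw [hgφ m x (fun w hw => by have := hUV m x hxU w hw; linarith)]
      simp only [φ, dd_of_mem _ hxU, _root_.sub_zero]
      exact max_eq_right ha.le
    have h2 : g m y = -a := by
      simp only [g, if_pos hm, dd_of_mem _ hyV, _root_.zero_sub]
      exact min_eq_right (by linarith [hφ0 y])
    rw [h1, h2]; ring

lemma cEmb_le_two_aux [TopologicalSpace.SeparableSpace M] [Nonempty M] {γ : Ordinal.{0}}
    (hγ : ω ^ (2 : Ordinal.{0}) ≤ γ) (η : ℝ≥0) (hη : 0 < η) :
    cEmb (CO γ) M ≤ ((1 + η) * (2 + η) : ℝ≥0) := by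
  obtain ⟨c, hc⟩ := TopologicalSpace.exists_dense_seq M
  obtain ⟨o⟩ := ‹Nonempty M›
  have hη' : (0 : ℝ) < η := hη
  set ρ : ℝ := 1 + η with hρ
  have hρ1 : 1 < ρ := by linarith
  have hρ0 : 0 < ρ := by linarith
  have hA : ∀ j : ℤ, 0 < ρ ^ j := fun j => zpow_pos hρ0 j
  have hAR : ∀ j : ℤ, ρ ^ j < ρ ^ j * ρ := fun j => lt_mul_of_one_lt_right (hA j) hρ1
  choose G g1 g2 g3 g4 using fun (i : ℤ × ℕ) => level_two hc o (hA i.1) (hAR i.1) i.2
  let F : Option (ℤ × ℕ) → M → Ordinal.{0} → ℝ := fun i =>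
    match i with
    | none => fun z _ => dist z o
    | some i => G i
  obtain ⟨H, h1, h2, -, -⟩ := glue (S := Set.univ) (γ := ht 1) F (fun _ => 0) (by
      rintro (_ | i)
      · exact sys_const _ _ _ (fun z w => abs_dist_sub_le z w o)
      · exact g1 i) (lip_const 0) (by
      intro z _ ε hε
      have hf := finite_scales hρ1 (t := dist z o / η + 1) hε
        (fun i => ∃ ξ, ε < |G i z ξ|) (by
          rintro j n ⟨ξ, hξ⟩
          refine ⟨hξ.trans_le (g2 (j, n) z ξ), ?_⟩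
          by_contra hcon
          push Not at hcon
          have h3 : dist z o ≤ ρ ^ j * η := by
            have : dist z o / η ≤ ρ ^ j := by linarith
            rwa [div_le_iff₀ hη'] at this
          rw [g3 (j, n) z ξ] at hξ
          · simp at hξ; linarith
          · intro m _ w _ hw
            have h4 := dist_triangle w z o
            rw [dist_comm w z] at h4
            simp only [hρ] at hw h3 ⊢
            nlinarith) (by
          intro j
          obtain ⟨m0, h⟩ := far_piece hc (hAR j) z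
          refine ⟨m0, ?_⟩
          rintro n ⟨ξ, hξ⟩
          by_contra hcon
          rw [g3 (j, n) z ξ (fun m hm w hw _ => h m (lt_of_lt_of_le (not_le.1 hcon) hm) w hw)] at hξ
          simp at hξ; linarith)
      refine ((hf.image some).insert none).subset ?_
      rintro (_ | i) ⟨ξ, hξ⟩
      · exact Set.mem_insert _ _
      · right
        exact ⟨i, ⟨ξ, by simpa [F] using hξ⟩, rfl⟩)
  refine cEmb_le (γ := ht 2) h1 (le_trans (by simpa using ht_le 2) hγ) _ (fun x y => ?_)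
  push_cast
  rcases (dist_nonneg (x := x) (y := y)).eq_or_lt with hd | hd
  · exact ⟨0, by rw [← hd]; positivity⟩
  obtain ⟨j, hj1, hj2⟩ := exists_mem_Ico_zpow (show 0 < dist x y / (4 + 2 * η) by positivity) hρ1
  rw [le_div_iff₀ (by positivity)] at hj1
  rw [div_lt_iff₀ (by positivity), zpow_add_one₀ hρ0.ne'] at hj2
  set a := ρ ^ j with ha
  have ha0 : 0 < a := hA j
  have key : ∀ ξ, 2 * a ≤ |H x ξ - H y ξ| → dist x y ≤ (1 + η) * (2 + η) * |H x ξ - H y ξ| := by
    intro ξ h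
    have : (1 + η) * (2 + η) * (2 * a) ≤ (1 + η) * (2 + η) * |H x ξ - H y ξ| :=
      mul_le_mul_of_nonneg_left h (by positivity)
    simp only [hρ] at hj2
    nlinarith
  have hsep : 2 * a + 2 * (a * ρ) ≤ dist x y := by simp only [hρ]; linarith
  obtain ⟨ξ0, hξ0⟩ := h2 none 0
  by_cases hx : a * ρ ≤ dist x o
  · by_cases hy : a * ρ ≤ dist y o
    · obtain ⟨n, hn⟩ := exists_piece hc (show 0 < a * ρ by positivity) x
      obtain ⟨m, hm⟩ := exists_piece hc (show 0 < a * ρ by positivity) y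
      rcases le_total n m with hnm | hnm
      · obtain ⟨ξ, hξ⟩ := g4 (j, n) m hnm x hn y hm hx hy hsep
        obtain ⟨ξ', hξ'⟩ := h2 (some (j, n)) ξ
        refine ⟨ξ', key ξ' ?_⟩
        rw [hξ', hξ']
        exact le_trans (le_of_eq hξ.symm) (le_abs_self _)
      · obtain ⟨ξ, hξ⟩ := g4 (j, m) n hnm y hm x hn hy hx (by rwa [dist_comm])
        obtain ⟨ξ', hξ'⟩ := h2 (some (j, m)) ξ
        refine ⟨ξ', key ξ' ?_⟩
        rw [hξ', hξ', abs_sub_comm]
        exact le_trans (le_of_eq hξ.symm) (le_abs_self _)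
    · refine ⟨ξ0, key ξ0 ?_⟩
      rw [hξ0, hξ0]
      refine le_trans ?_ (le_abs_self _)
      have h4 := dist_triangle x o y
      rw [dist_comm o y] at h4
      simp only [F]
      linarith [not_le.1 hy]
  · refine ⟨ξ0, key ξ0 ?_⟩
    rw [hξ0, hξ0, abs_sub_comm]
    refine le_trans ?_ (le_abs_self _)
    have h4 := dist_triangle x o y
    rw [dist_comm o y] at h4
    simp only [F]
    linarith [not_le.1 hx]

lemma le_of_forall_nnreal {A : ℝ≥0∞} {b : ℝ≥0} (φ : ℝ≥0 → ℝ≥0) (hφ : Continuous φ) (h0 : φ 0 = b)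
    (s : ℝ≥0) (hs : 0 < s) (h : ∀ η : ℝ≥0, 0 < η → η < s → A ≤ φ η) : A ≤ b := by
  have h1 : Filter.Tendsto (fun η : ℝ≥0 => ((φ η : ℝ≥0) : ℝ≥0∞)) (nhdsWithin 0 (Set.Ioi 0))
      (nhds (b : ℝ≥0∞)) := by
    rw [ENNReal.tendsto_coe, ← h0]
    exact (hφ.tendsto 0).mono_left nhdsWithin_le_nhds
  refine ge_of_tendsto h1 ?_
  filter_upwards [Ioo_mem_nhdsGT hs] with η hη
  exact h η hη.1 hη.2

theorem cEmb_le_two [TopologicalSpace.SeparableSpace M] [Nonempty M] {γ : Ordinal.{0}}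
    (hγ : ω ^ (2 : Ordinal.{0}) ≤ γ) : cEmb (CO γ) M ≤ 2 := by
  have := le_of_forall_nnreal (A := cEmb (CO γ) M) (b := 2) (fun η => (1 + η) * (2 + η))
    (by fun_prop) (by simp) 1 one_pos (fun η h _ => cEmb_le_two_aux hγ η h)
  simpa using this

end Pool.Agent.H712Z.CK
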